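import Pool.Agent.Work.MP_d4a230_co.E.Hit

/-!
A small hitting set for the embeddings of the core when the whole structure has few embeddings.
-/

namespace Pool.Agent.Work.MP_d4a230_co.U

open Finset Filter Topology Pool.Agent.Work.MP_07f1b5_pr
open scoped BigOperators

set_option linter.unusedSectionVars false

section aux

variable {V G VB V0 E0 EZ : Type} [Fintype V] [DecidableEq V] [Fintype G] [DecidableEq G]
  [Fintype VB] [DecidableEq VB] [Fintype V0] [DecidableEq V0]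
  [Fintype E0] [DecidableEq E0] [Fintype EZ] [DecidableEq EZ] (eb : E0 ⊕ EZ → VB × VB)

lemma e_log {X : Type} [Fintype X] [Nonempty X] {t : ℝ}
    (h : Real.log (2 * Fintype.card (Option Unit × X)) ≤ t) :
    Real.log (2 * Fintype.card (EZ → X)) ≤ ((Fintype.card EZ : ℝ) + 1) ^ 2 * t := by
  have x1 : (1 : ℝ) ≤ Fintype.card X := by exact_mod_cast Fintype.card_pos
  have e : (Fintype.card (Option Unit × X) : ℝ) = 2 * Fintype.card X := by simp
  rw [e] at h
  have t0 : 0 ≤ t := (Real.log_nonneg (by linarith only [x1])).trans h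
  have h1 : (2 * Fintype.card (EZ → X) : ℝ) ≤
      (2 * (2 * Fintype.card X)) ^ (Fintype.card EZ + 1) := by
    rw [Fintype.card_fun, Nat.cast_pow, pow_succ']
    exact mul_le_mul (by linarith only [x1]) (pow_le_pow_left₀ (by positivity)
      (by linarith only [x1]) _) (by positivity) (by positivity)
  refine (Real.log_le_log (by have := Fintype.card_pos (α := EZ → X); positivity) h1).trans ?_
  rw [Real.log_pow]
  push_cast
  have z1 : (1 : ℝ) ≤ Fintype.card EZ + 1 := le_add_of_nonneg_left (Nat.cast_nonneg _)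
  exact mul_le_mul (le_self_pow₀ z1 two_ne_zero) h (Real.log_nonneg (by linarith only [x1]))
    (by positivity)

set_option synthInstance.maxSize 1024 in
theorem e_fin2 [Nonempty V] [Nonempty G] [Nonempty E0] (φ : V0 ↪ VB) (e0 : E0 → V0 × V0)
    (hφ : ∀ g, eb (.inl g) = (φ (e0 g).1, φ (e0 g).2))
    (hi : Function.Injective fun g => s((e0 g).1, (e0 g).2))
    (hne : ∀ f, (eb (.inr f)).1 ≠ (eb (.inr f)).2) {C0 C Cc Mx γ δ d ε κ : ℝ} {m K : ℕ}
    (hC : 0 < C) (hM : 0 < Mx) (hK : 0 < K) (hm : 0 < m) (hγ : 0 < γ) (hγ2 : γ ≤ 1 / 2)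
    (hδ : 0 < δ) (hε : 0 ≤ ε) (k0 : 0 < κ) (c0 : 0 ≤ Cc) (hm1 : 1 / (m : ℝ) ≤ γ)
    (hD : ∀ w : EZ → V × V → ℝ, (∀ f, Unit01 (w f)) → ∃ P : V × V → Prop,
      ∀ ρ : V × V → ℝ, (∀ e, ρ e.swap = ρ e) → (∀ f, cut (fun e => ρ e - w f e) ≤ 2 * γ) →
        dfc d ρ ≤ 2 * γ → 𝔼 e, ρ e * ind (P e) ≤ ε ∧
          𝔼 x : VB → V, ind ((∀ g, ¬ P (exf (fun g => eb (.inl g)) x g)) ∧
            eXt (fun f => eb (.inr f)) (univ.map φ) w x < κ) ≤ ε)
    (hc : (Fintype.card V : ℝ) ^ Fintype.card V0 ≤ Cc * Fintype.card (G × Unit) *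
      ((Fintype.card V : ℝ) ^ 2 / (2 * Fintype.card (G × Unit))) ^ Fintype.card E0)
    (hS : ∀ (l : G → Option (E0 ⊕ EZ)) (f : EZ), 𝔼 y : G → Bool → V, S2 eb (.inr f) (fun g e =>
      Fintype.card (Option (E0 ⊕ EZ)) * den (sp ep1 y) (lay Unit l (some g)) e + 1)
        (Fintype.card (Option (E0 ⊕ EZ)) * (Fintype.card V : ℝ) ^ 2 / K) ≤ C0)
    (h1 : 2 * ((Fintype.card V : ℝ) + 1) ≤ δ ^ 2 * Fintype.card G)
    (h2 : Real.log (2 * Fintype.card (Option Unit × (Fin (2 * m ^ 2 + 1) → Bool ×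
      ((E0 ⊕ EZ → Fin K → Option (V × V)) ⊕ (Finset V × Finset V))))) ≤ δ ^ 2 * Fintype.card G) :
    ∃ err : (G → Bool → V) → ℝ, (∀ y, 0 ≤ err y) ∧ 𝔼 y, err y ≤
      (2 + Cc) * ε + Cc / κ * (Fintype.card EZ * (Mx / m + C / Mx)) +
      Fintype.card EZ * (2 * δ * Fintype.card (Option (E0 ⊕ EZ)) / γ) +
      Fintype.card EZ * (C0 / C + 4 * δ * (3 * m) * Fintype.card (Option (E0 ⊕ EZ)) / γ) +
      2 * ((Fintype.card EZ + 1) * δ) ∧
      ∀ y (R : Finset (G × Unit)), dfc d (den (sp ep1 y) R) ≤ γ →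
        ∃ A, EHs e0 (sp ep1 y) (fun _ => True) (fun _ => R) A ∧ (A.card : ℝ) ≤
          Fintype.card E0 * (Fintype.card (Option (E0 ⊕ EZ)) : ℝ) ^ Fintype.card E0 *
          (Fintype.card (G × Unit) *
            (Cc / κ * Cnt eb (sp ep1 y) (fun _ => 1) (fun _ => R) + err y)) := by
  have hQ1 : (1 : ℝ) ≤ Fintype.card (Option (E0 ⊕ EZ)) := by exact_mod_cast Fintype.card_pos
  have hQ0 : (0 : ℝ) ≤ Fintype.card (Option (E0 ⊕ EZ)) := Nat.cast_nonneg _
  have ep0 : ∀ j, (ep1 j).1 ≠ (ep1 j).2 := fun _ => Bool.false_ne_true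
  obtain ⟨B, hB0, hB1, hB2⟩ := cr_bad eb ep1 ep0
    (fun f (p : Option Unit × (Fin (2 * m ^ 2 + 1) → Bool ×
      ((E0 ⊕ EZ → Fin K → Option (V × V)) ⊕ (Finset V × Finset V)))) e => max (bsum m
      (tests eb (Fintype.card (Option (E0 ⊕ EZ))) Mx K (.inr f) fun _ => 1) p.2 e) 0)
    hC hγ hδ (c := 3 * m) (by positivity) (by positivity)
    (fun f p e => ⟨le_max_right _ _, max_le ((le_abs_self _).trans (bsum_le m hm _ (fun t e => by
      have := tests_unit eb hQ0 hM K (.inr f) (Cut_unit (X := VB → V)) t e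
      rw [abs_of_nonneg this.1]; exact this.2) _ _)) (by positivity)⟩) hS
    (le_trans (by have : (0 : ℝ) ≤ Fintype.card V := Nat.cast_nonneg _; linarith only [this]) h1) h2
  set Q : ℝ := ((Fintype.card (Option (E0 ⊕ EZ)) : ℕ) : ℝ) with hQ
  have hNG : Fintype.card (G × Unit) = Fintype.card G := by simp
  set N : ℝ := ((Fintype.card (G × Unit) : ℕ) : ℝ) with hN
  have N0 : 0 < N := Nat.cast_pos.2 Fintype.card_pos
  set s : ℝ := Fintype.card EZ * (Mx / m + C / Mx) with hs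
  have hs0 : 0 ≤ s := by positivity
  have wu : ∀ c f, Unit01 (ewm (V := V) eb Q Mx K m c f) := fun c f e => clip_unit _
  choose P hP using fun c => hD (ewm eb Q Mx K m c) (wu c)
  obtain ⟨v0⟩ := ‹Nonempty V›
  let ex : (V0 → V) → VB → V := fun x => Function.extend φ x fun _ => v0
  have ex1 : ∀ x a, ex x (φ a) = x a := fun x a => φ.injective.extend_apply _ _ _
  have ex2 : ∀ x : VB → V, ∀ r ∈ univ.map φ, ex (fun a => x (φ a)) r = x r := fun x r hr => by
    obtain ⟨a, -, rfl⟩ := mem_map.1 hr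
    exact ex1 _ a
  have ex3 : ∀ (x : VB → V) g, exf eb x (.inl g) = exf e0 (fun a => x (φ a)) g := fun x g => by
    rw [exf, hφ]; rfl
  let Sm := fun c (x : V0 → V) => (∀ g, ¬ P c (exf e0 x g)) ∧
    eXt (fun f => eb (.inr f)) (univ.map φ) (ewm eb Q Mx K m c) (ex x) < κ
  obtain ⟨er, er0, er1, er2⟩ := maxineq (fun c (y : G → Bool → V) => ehn e0 (Sm c) (sp ep1 y))
    (δ := (Fintype.card EZ + 1) * δ) one_pos (by positivity)
    (fun c y i a => abs_sub_le_iff.2 ⟨ehn_one (i, ()) fun j hj => by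
      rw [sp, sp, Function.update_of_ne fun e => hj (Prod.ext e rfl)],
      ehn_one (i, ()) fun j hj => by
      rw [sp, sp, Function.update_of_ne fun e => hj (Prod.ext e rfl)]⟩)
    ((e_log h2).trans_eq (by ring))
  set ν : (G → Bool → V) → (G → Option (E0 ⊕ EZ)) → E0 ⊕ EZ → V × V → ℝ :=
    fun y l f e => Q * den (sp ep1 y) (lay Unit l (some f)) e with hν
  refine ⟨fun y => (2 + Cc) * ε + Cc / κ * s + Fintype.card EZ * (2 * δ * Q / γ) +
    (𝔼 l, B y l) + er y / N, fun y => ?_, ?_, ?_⟩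
  · have : 0 ≤ 𝔼 l, B y l := expect_nonneg fun l _ => hB0 y l
    have := er0 y
    positivity
  · simp only [expect_add_distrib, Fintype.expect_const, ← expect_div]
    refine add_le_add (add_le_add le_rfl hB1) ?_
    rw [div_le_iff₀ N0, hN, hNG]
    linarith only [er1]
  intro y R hR
  set a : (G → Option (E0 ⊕ EZ)) → E0 ⊕ EZ → V × V → ℝ :=
    fun l f e => Q * den (sp ep1 y) (R ∩ lay Unit l (some f)) e with ha
  have ha0 : ∀ l f e, 0 ≤ a l f e ∧ a l f e ≤ ν y l f e := fun l f e =>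
    ⟨mul_nonneg hQ0 (den_nonneg _ _ _),
      mul_le_mul_of_nonneg_left (den_mono _ inter_subset_right _) hQ0⟩
  have pt : ∀ l, ∃ A, EHs e0 (sp ep1 y) (fun _ => True)
      (fun g => R ∩ lay Unit l (some (.inl g) : Option (E0 ⊕ EZ))) A ∧ (A.card : ℝ) ≤
      N * ((2 + Cc) * ε + Cc / κ * (Lam eb (fun _ => 1) (a l) + s) +
        ∑ f : EZ, cut (fun e => a l (.inr f) e - den (sp ep1 y) R e) / γ + B y l) + er y := by
    intro l
    have b4 : 0 ≤ ∑ f : EZ, cut (fun e => a l (.inr f) e - den (sp ep1 y) R e) / γ :=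
      sum_nonneg fun f _ => div_nonneg (cut_nonneg _) hγ.le
    have c6 : 0 ≤ Lam eb (fun _ => 1) (a l) := (CL_lam_le eb (Cut_unit (X := VB → V)) (ha0 l)).1
    by_cases h : ∀ f : EZ, B y l < 1 ∧ cut (fun e => a l (.inr f) e - den (sp ep1 y) R e) ≤ γ
    · obtain ⟨c, q1, q2⟩ := e_scl eb hne (ν y l) (C := C) hQ1 hM hK hm (fun f => by
          simp only [hν, ← mul_expect]
          exact mul_le_of_le_one_right hQ0 (ex_den_le _ _))
        (fun f => (div_le_one hC).1 ((hB2 y l f).1.trans (h f).1.le))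
        (fun f c => ((le_abs_self _).trans ((hB2 y l f).2 (h f).1 (none, c))).trans hγ2)
        (a l) (ha0 l)
      obtain ⟨p1, p2⟩ := hP c _ (den_swap (sp ep1 y) R) (fun f => by
        have k := cut_tri (den (sp ep1 y) R) (a l (.inr f)) (ewm eb Q Mx K m c f)
        rw [cut_comm _ (a l (.inr f))] at k
        linarith only [k, (h f).2, q1 f, hm1]) (by linarith only [hR, hγ])
      obtain ⟨A1, a1, a2⟩ := e_pairs (sp ep1 y) R (P c)
      obtain ⟨A2, a3, a4⟩ := ehn_opt (e0 := e0) (Sm c) (sp ep1 y)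
      obtain ⟨A3, a5, a6⟩ := e_cnt hi hc (sp ep1 y)
        (fun x => κ ≤ eXt (fun f => eb (.inr f)) (univ.map φ) (ewm eb Q Mx K m c) (ex x))
        fun g => R ∩ lay Unit l (some (.inl g) : Option (E0 ⊕ EZ))
      refine ⟨A1 ∪ A2 ∪ A3, fun ι ⟨x, x1, _, x3⟩ => ?_, ?_⟩
      · by_cases k1 : ∃ g, P c (exf e0 x g)
        · obtain ⟨g, hg⟩ := k1
          exact ⟨g, mem_union_left _ (mem_union_left _
            (a1 _ (mem_inter.1 (x3 g).1).1 _ hg (x3 g).2))⟩
        by_cases k2 : κ ≤ eXt (fun f => eb (.inr f)) (univ.map φ) (ewm eb Q Mx K m c) (ex x)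
        · obtain ⟨g, hg⟩ := a5 ι ⟨x, x1, k2, x3⟩
          exact ⟨g, mem_union_right _ hg⟩
        · obtain ⟨g, hg⟩ := a3 ι ⟨x, x1, ⟨not_exists.1 k1, not_le.1 k2⟩,
            fun g => ⟨mem_univ _, (x3 g).2⟩⟩
          exact ⟨g, mem_union_left _ (mem_union_right _ hg)⟩
      have d1 : ((A1 ∪ A2 ∪ A3).card : ℝ) ≤ A1.card + A2.card + A3.card := by
        exact_mod_cast (card_union_le _ _).trans (Nat.add_le_add_right (card_union_le _ _) _)
      have d2 : 𝔼 y2 : G → Bool → V, ehn e0 (Sm c) (sp ep1 y2) ≤ Cc * N * ε := by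
        refine (ex_mono fun y2 => ?_).trans ((mul_expect _ _ _).symm.trans_le
          (mul_le_mul_of_nonneg_left ((cnt_one (G := G) e0 ep1 ep0
            (D := fun x => ind (Sm c x)) fun _ => ind_nonneg _).trans ?_) (by positivity)))
        · obtain ⟨A, k1, k2⟩ := e_cnt hi hc (sp ep1 y2) (Sm c) fun _ => univ
          exact (ehn_le k1).trans k2
        · refine le_of_eq_of_le ?_ p2
          rw [← ex_comp_inj φ φ.injective]
          refine expect_congr rfl fun x _ => ind_congr (and_congr (forall_congr' fun g => ?_) ?_)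
          · rw [← ex3]; rfl
          · rw [eXt_congr _ _ _ (ex2 x)]
      have d3 : κ * Cnt e0 (sp ep1 y) (fun x => ind (κ ≤
          eXt (fun f => eb (.inr f)) (univ.map φ) (ewm eb Q Mx K m c) (ex x)))
          (fun g => R ∩ lay Unit l (some (.inl g) : Option (E0 ⊕ EZ))) ≤
          Lam eb (fun _ => 1) (Sum.elim (fun g => a l (.inl g)) (ewm eb Q Mx K m c)) := by
        refine (mul_le_mul_of_nonneg_left (e_lam fun _ => ind_nonneg _) k0.le).trans ?_
        have k1 : Lam eb (fun _ => 1) (Sum.elim (fun g => a l (.inl g)) (ewm eb Q Mx K m c)) =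
            Lam (fun f => eb (.inr f)) (fun x => ∏ g, a l (.inl g) (exf eb x (.inl g)))
              (ewm eb Q Mx K m c) :=
          expect_congr rfl fun x _ => by rw [one_mul, Fintype.prod_sum_type]; rfl
        rw [k1, eXt_lam _ (univ.map φ) _ _ fun x x2 k => prod_congr rfl fun g _ => by
          rw [ex3, ex3, funext fun b => k _ (mem_map_of_mem φ (mem_univ b))], Lam, mul_expect,
          ← ex_comp_inj φ φ.injective]
        refine ex_mono fun x => ?_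
        rw [eXt_congr _ _ _ (ex2 x), ← mul_assoc, mul_comm]
        refine mul_le_mul (prod_le_prod (fun g _ => den_nonneg _ _ _) fun g _ => ?_) ?_
          (mul_nonneg k0.le (ind_nonneg _)) (prod_nonneg fun g _ => (ha0 l _ _).1)
        · rw [ex3]
          exact le_mul_of_one_le_left (den_nonneg _ _ _) hQ1
        · by_cases k : κ ≤ eXt (fun f => eb (.inr f)) (univ.map φ) (ewm eb Q Mx K m c) x
          · rw [ind_pos k, mul_one]; exact k
          · rw [ind_neg k, mul_zero]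
            exact expect_nonneg fun _ _ => prod_nonneg fun f _ => (wu c f _).1
      have d4 := mul_le_mul_of_nonneg_left ((le_div_iff₀' k0).2 (d3.trans
        (by linarith only [(abs_le.1 q2).1] : _ ≤ Lam eb (fun _ => 1) (a l) + s)))
        (mul_nonneg c0 N0.le)
      have d5 := mul_le_mul_of_nonneg_left p1 (mul_nonneg zero_le_two N0.le)
      have d6 := (abs_le.1 (er2 y c)).2
      have d7 := mul_nonneg N0.le (add_nonneg b4 (hB0 y l))
      have d8 : Cc * N * ((Lam eb (fun _ => 1) (a l) + s) / κ) =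
          N * (Cc / κ * (Lam eb (fun _ => 1) (a l) + s)) := by ring
      linarith only [d1, d2, d4, d5, d6, d7, d8, a2, a4, a6]
    · obtain ⟨f, hf⟩ := not_forall.1 h
      have c1 : 1 ≤ ∑ f : EZ, cut (fun e => a l (.inr f) e - den (sp ep1 y) R e) / γ + B y l := by
        by_cases e : B y l < 1
        · have c2 := ((one_le_div hγ).2 (not_le.1 fun e2 => hf ⟨e, e2⟩).le).trans (single_le_sum
            (f := fun f : EZ => cut (fun e => a l (.inr f) e - den (sp ep1 y) R e) / γ)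
            (fun f _ => div_nonneg (cut_nonneg _) hγ.le) (mem_univ f))
          linarith only [c2, hB0 y l]
        · linarith only [not_lt.1 e, b4]
      refine ⟨univ, fun ι _ => ⟨Classical.arbitrary _, mem_univ _⟩, ?_⟩
      have c2 : 0 ≤ (2 + Cc) * ε + Cc / κ * (Lam eb (fun _ => 1) (a l) + s) := by positivity
      have c3 := mul_le_mul_of_nonneg_left (add_le_add c2 c1) N0.le
      rw [card_univ]
      linarith only [c3, er0 y, hN]
  choose A a1 a2 using pt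
  obtain ⟨A2, a3, a4⟩ := e_avg hi (fun g => (some (.inl g) : Option (E0 ⊕ EZ)))
    ((Option.some_injective _).comp Sum.inl_injective) R A a1
  refine ⟨A2, a3, a4.trans (mul_le_mul_of_nonneg_left ((ex_mono a2).trans ?_) (by positivity))⟩
  rw [← rainbow eb (sp ep1 y) _ _ some (Option.some_injective _)]
  simp only [expect_add_distrib, Fintype.expect_const, ← mul_expect, expect_sum_comm,
    ← expect_div]
  have c : ∑ f : EZ, (𝔼 l, cut (fun e => a l (.inr f) e - den (sp ep1 y) R e)) / γ ≤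
      Fintype.card EZ * (2 * δ * Q / γ) := by
    rw [← card_univ, ← nsmul_eq_mul]
    refine sum_le_card_nsmul _ _ _ fun f _ => ?_
    exact div_le_div_of_nonneg_right
      (lay_close (sp ep1 y) R (some (.inr f) : Option (E0 ⊕ EZ)) hδ h1) hγ.le
  have c2 := mul_le_mul_of_nonneg_left c N0.le
  have c3 : N * (er y / N) = er y := mul_div_cancel₀ _ N0.ne'
  linarith only [c2, c3]

end aux

variable {W : Type} [Fintype W] [DecidableEq W] {H : SimpleGraph W} [DecidableRel H.Adj]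
  {n M : ℕ → ℕ} {τ : ℕ → ℝ}

theorem e_count (R : Reg H ep1 n M τ) {VB V0 E0 EZ : Type} [Fintype VB] [DecidableEq VB]
    [Fintype V0] [DecidableEq V0] [Fintype E0] [DecidableEq E0] [Nonempty E0] [Fintype EZ]
    [DecidableEq EZ] (eb : E0 ⊕ EZ → VB × VB) (φ : V0 ↪ VB) (e0 : E0 → V0 × V0)
    (hφ : ∀ g, eb (.inl g) = (φ (e0 g).1, φ (e0 g).2))
    (hi : Function.Injective fun g => s((e0 g).1, (e0 g).2)) {d0 d Cc ε : ℝ}
    (S : ExS (fun g => eb (.inl g)) (fun f => eb (.inr f)) (univ.map φ) d0)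
    (hDC : ∀ (f : EZ) (F : Finset (E0 ⊕ EZ)), .inr f ∉ F → F.Nonempty →
      (Fintype.card W - 2) * F.card < (R.K - 1) * (vset eb F \ vset eb {.inr f}).card)
    (hd0 : 0 ≤ d0) (hd : d0 < d) (c0 : 0 ≤ Cc) (hc : ∀ᶠ j in atTop,
      (n j : ℝ) ^ Fintype.card V0 ≤ Cc * M j * ((n j : ℝ) ^ 2 / (2 * M j)) ^ Fintype.card E0)
    (hε : 0 < ε) : ∃ γ A0 : ℝ, 0 < γ ∧ 0 ≤ A0 ∧ ∀ᶠ j in atTop,
      ∃ err : (Fin (M j) → Bool → Fin (n j)) → ℝ, (∀ y, 0 ≤ err y) ∧ 𝔼 y, err y ≤ ε ∧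
        ∀ y (T : Finset (Fin (M j) × Unit)), dfc d (den (sp ep1 y) T) ≤ γ →
          ∃ A, EHs e0 (sp ep1 y) (fun _ => True) (fun _ => T) A ∧ (A.card : ℝ) ≤
            M j * (A0 * Cnt eb (sp ep1 y) (fun _ => 1) (fun _ => T) + err y) := by
  obtain ⟨K, hK1, hK2, hK3⟩ := R.net
  have hQ1 : (1 : ℝ) ≤ Fintype.card (Option (E0 ⊕ EZ)) := by exact_mod_cast Fintype.card_pos
  obtain ⟨C0, hC0, hmom⟩ := cr_mom eb (Fintype.card W) R.K ep1 R.ne hQ1
  have hQE : (Fintype.card (Option (E0 ⊕ EZ)) : ℝ) = Fintype.card (E0 ⊕ EZ) + 1 := by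
    rw [Fintype.card_option]; push_cast; rfl
  have hQZ : (Fintype.card EZ : ℝ) + 1 ≤ Fintype.card (Option (E0 ⊕ EZ)) := by
    rw [Fintype.card_option, Fintype.card_sum]; exact_mod_cast (by omega)
  set Q : ℝ := ((Fintype.card (Option (E0 ⊕ EZ)) : ℕ) : ℝ) with hQ
  have hE0 : (0 : ℝ) ≤ Fintype.card EZ := Nat.cast_nonneg _
  set A1 : ℝ := Fintype.card E0 * Q ^ Fintype.card E0 with hA1
  have a0 : 0 < A1 := by positivity
  obtain ⟨η, hη, hη1⟩ : ∃ η : ℝ, 0 < η ∧ A1 * (7 * (Q * η)) ≤ ε :=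
    ⟨ε / (A1 * (7 * Q)), by positivity, le_of_eq (by field_simp)⟩
  obtain ⟨γ0, κ, n0, g0, k0, hD⟩ := e_dense S hd0 hd (ε := η / (2 + Cc)) (by positivity)
  obtain ⟨C, hC, hC1⟩ : ∃ C : ℝ, 0 < C ∧ C0 / C ≤ η :=
    ⟨(C0 + 1) / η, by positivity, by
      rw [div_le_iff₀ (by positivity), mul_div_cancel₀ _ hη.ne']; linarith⟩
  obtain ⟨η2, h2, h3⟩ : ∃ η2 : ℝ, 0 < η2 ∧ Cc / κ * η2 ≤ η :=
    ⟨η / (Cc / κ + 1), by positivity, by
      rw [mul_div_assoc', div_le_iff₀ (by positivity)]; linarith only [hη]⟩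
  obtain ⟨Mx, hM, hM1⟩ : ∃ Mx : ℝ, 0 < Mx ∧ C / Mx ≤ η2 :=
    ⟨C / η2, by positivity, by rw [div_div_cancel₀ hC.ne']⟩
  obtain ⟨γ, hγ, hγ1, hγ2⟩ : ∃ γ : ℝ, 0 < γ ∧ γ ≤ 1 / 2 ∧ 2 * γ ≤ γ0 :=
    ⟨min (1 / 2) (γ0 / 2), by positivity, min_le_left _ _,
      (le_div_iff₀' two_pos).1 (min_le_right _ _)⟩
  obtain ⟨m, hm, hm1, hm3⟩ : ∃ m : ℕ, 0 < m ∧ Mx / m ≤ η2 ∧ 1 / (m : ℝ) ≤ γ := by
    have h0 : 0 < ⌈Mx / η2 + 1 / γ⌉₊ := Nat.ceil_pos.2 (by positivity)
    have h1 := Nat.le_ceil (Mx / η2 + 1 / γ)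
    have h4 : (0 : ℝ) < ⌈Mx / η2 + 1 / γ⌉₊ := by exact_mod_cast h0
    refine ⟨_, h0, ?_, ?_⟩
    · rw [div_le_iff₀ h4, mul_comm, ← div_le_iff₀ h2]
      exact (le_add_of_nonneg_right (by positivity)).trans h1
    · rw [div_le_iff₀ h4, mul_comm, ← div_le_iff₀ hγ]
      exact (le_add_of_nonneg_left (by positivity)).trans h1
  have hm2 : (1 : ℝ) ≤ m := by exact_mod_cast hm
  obtain ⟨δ, hδ, hδ1⟩ : ∃ δ : ℝ, 0 < δ ∧ 4 * δ * (3 * m) * Q / γ ≤ η :=
    ⟨η * γ / (12 * m * Q), by positivity, le_of_eq (by field_simp; norm_num)⟩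
  have hδ2 : 2 * δ * Q / γ ≤ η := le_trans (div_le_div_of_nonneg_right
    (mul_le_mul_of_nonneg_right (by nlinarith only [hδ, hm2]) (by linarith only [hQ1])) hγ.le) hδ1
  have hδ3 : 2 * ((Fintype.card EZ + 1) * δ) ≤ η := by
    refine le_trans ?_ hδ2
    rw [le_div_iff₀ hγ]
    have b1 := mul_le_mul_of_nonneg_right hQZ hδ.le
    have b2 := mul_le_mul_of_nonneg_left hγ1 (show 0 ≤ (Fintype.card EZ + 1) * δ by positivity)
    nlinarith only [b1, b2, hδ, hE0]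
  refine ⟨γ, A1 * (Cc / κ), hγ, by positivity, ?_⟩
  have hr : (0 : ℝ) < ((2 * m ^ 2 + 1 : ℕ) : ℝ) * Q := by positivity
  filter_upwards [hK1, R.pos, R.lin 2 (pow_pos hδ 2),
    R.lin (2 + |(0 : ℝ)| + 2 * ((2 * m ^ 2 + 1 : ℕ) : ℝ)) (half_pos (pow_pos hδ 2)),
    hK2 _ (div_pos (half_pos (pow_pos hδ 2)) hr),
    (eventually_all_finset (range (Fintype.card (E0 ⊕ EZ) + 1) ×ˢ range (Fintype.card VB + 1))).2
      fun p _ => (eventually_imp_distrib_left (p := (Fintype.card W - 2) * p.1 <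
        (R.K - 1) * p.2)).2 (hK3 Q p.1 p.2 (by positivity)), hc,
    (RegK_cast R.hn).eventually_ge_atTop n0]
    with j j1 j2 j3 j4 j5 j6 j7 j8
  have : Nonempty (Fin (n j)) := ⟨⟨0, j2.1⟩⟩
  have : Nonempty (Fin (M j)) := ⟨⟨0, j2.1.trans_le j2.2⟩⟩
  have hb0 : M j ≤ M j * Fintype.card Unit := Nat.le_mul_of_pos_right _ Fintype.card_pos
  have hK0 : (0 : ℝ) < K j := by exact_mod_cast j1.1
  have c1 : (n j : ℝ) ^ 2 ≤
      Q * (Fintype.card (Fin (n j)) : ℝ) ^ 2 / K j * (M j * Fintype.card Unit : ℕ) := by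
    rw [Fintype.card_fin, div_mul_eq_mul_div, le_div_iff₀ hK0]
    have b1 : (K j : ℝ) ≤ (M j * Fintype.card Unit : ℕ) := by exact_mod_cast j1.2.trans hb0
    exact mul_le_mul (le_mul_of_one_le_left (by positivity) hQ1) b1 hK0.le (by positivity)
  have c2 : ∀ a c : ℕ, a ≤ Fintype.card (E0 ⊕ EZ) → c ≤ Fintype.card VB →
      (Fintype.card W - 2) * a < (R.K - 1) * c →
      (Q * (Fintype.card (Fin (n j)) : ℝ) ^ 2 / K j) ^ a ≤ (n j : ℝ) ^ c := by
    intro a c ha hc hac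
    rw [Fintype.card_fin]
    exact j6 (a, c) (mem_product.2 ⟨mem_range.2 (by omega), mem_range.2 (by omega)⟩) hac
  have c3 := CL_card (EB := E0 ⊕ EZ) (Ω := Unit) (C1 := 0) (n j) (K j) (2 * m ^ 2 + 1) (by simp)
  have b1 : 0 ≤ K j * Real.log ((n j : ℝ) ^ 2 + 1) :=
    mul_nonneg hK0.le (Real.log_nonneg (by nlinarith only [sq_nonneg (n j : ℝ)]))
  have c4 : ((2 * m ^ 2 + 1 : ℕ) : ℝ) * Fintype.card (E0 ⊕ EZ) *
      (K j * Real.log ((n j : ℝ) ^ 2 + 1)) ≤
      ((2 * m ^ 2 + 1 : ℕ) : ℝ) * Q * (δ ^ 2 / 2 / (((2 * m ^ 2 + 1 : ℕ) : ℝ) * Q) * M j) := by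
    gcongr
    linarith only [hQE]
  rw [← mul_assoc _ _ (M j : ℝ), mul_div_cancel₀ _ hr.ne'] at c4
  have cM : Fintype.card (Fin (M j) × Unit) = M j := by simp
  obtain ⟨err, e0, e1, e2⟩ := e_fin2 (G := Fin (M j)) (V := Fin (n j)) eb φ e0 hφ hi S.ne (C0 := C0)
    (d := d) (ε := η / (2 + Cc)) hC hM j1.1 hm hγ hγ1 hδ (by positivity) k0 c0 hm3
    (fun w hw => (hD (Fin (n j)) (by rwa [Fintype.card_fin]) w hw).imp fun P hP ρ r1 r2 r3 =>
      hP ρ r1 (fun f => (r2 f).trans hγ2) (r3.trans hγ2))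
    (by rwa [cM, Fintype.card_fin])
    (fun l f => hmom (n j) (M j) _ l some _ (Option.some_injective _) j2.1 (j2.2.trans hb0) c1 c2 _
      (hDC f))
    (by simpa only [Fintype.card_fin] using j3)
    (c3.trans (by rw [Fintype.card_fin]; exact (add_le_add j4 c4).trans_eq (by ring)))
  refine ⟨fun y => A1 * err y, fun y => mul_nonneg a0.le (e0 y), ?_, fun y T hT => ?_⟩
  · rw [← mul_expect]
    refine (mul_le_mul_of_nonneg_left (e1.trans ?_) a0.le).trans hη1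
    rw [← hQ, mul_div_cancel₀ _ (by positivity)]
    have b2 := mul_le_mul_of_nonneg_left (add_le_add hm1 hM1) (div_nonneg c0 k0.le)
    have b3 : Cc / κ * (Mx / m + C / Mx) + 2 * δ * Q / γ + (C0 / C + 4 * δ * (3 * m) * Q / γ) ≤
        5 * η := by linarith only [b2, h3, hδ2, hC1, hδ1]
    have b4 := mul_le_mul_of_nonneg_left b3 hE0
    have b5 := mul_le_mul_of_nonneg_right hQZ hη.le
    have b6 := mul_nonneg hE0 hη.le
    linarith only [b4, b5, b6, hδ3, hη]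
  · obtain ⟨A, a1, a2⟩ := e2 y T hT
    refine ⟨A, a1, a2.trans_eq ?_⟩
    rw [cM, ← hQ, ← hA1]
    ring

end Pool.Agent.Work.MP_d4a230_co.U
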