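import Pool.Agent.Work.MP_d4a230_co.C.DegDefs

namespace Pool.Agent.Work.MP_d4a230_co

/-- In every finite graph `Γ` on `V` with all degrees at least `d * |V|`, every homomorphism from
`F` to `Γ` extends to a homomorphism from `H` to `Γ`. -/
def ExtendsAt {W : Type} {H : SimpleGraph W} (F : H.Subgraph) (d : ℝ) : Prop :=
  ∀ (V : Type) [Finite V] (Γ : SimpleGraph V),
    (∀ v, d * (Nat.card V : ℝ) ≤ ((Γ.neighborSet v).ncard : ℝ)) →
      ∀ ψ : F.coe →g Γ, ∃ χ : H →g Γ, ∀ a : F.verts, χ a = ψ a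

end Pool.Agent.Work.MP_d4a230_co
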