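import Pool.Agent.Work.MP_d4a230_co.E.Reg

/-!
Dense extension lemma of removal type.
-/

namespace Pool.Agent.Work.MP_d4a230_co.U

open Finset Filter Topology Pool.Agent.Work.MP_07f1b5_pr
open scoped BigOperators

set_option linter.unusedSectionVars false

lemma e_prod {J : Type} (s : Finset J) (g h : J → ℝ) (hg : Unit01 g) (hh : Unit01 h) :
    ∏ j ∈ s, h j - ∑ j ∈ s, |g j - h j| ≤ ∏ j ∈ s, g j := by
  induction s using Finset.cons_induction with
  | empty => simp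
  | cons a s ha ih =>
    rw [sum_cons, prod_cons, prod_cons]
    have h1 : 0 ≤ ∑ j ∈ s, |g j - h j| := sum_nonneg fun j _ => abs_nonneg _
    have h2 : 0 ≤ ∏ j ∈ s, h j := prod_nonneg fun j _ => (hh j).1
    have h3 : ∏ j ∈ s, h j ≤ 1 := prod_le_one (fun j _ => (hh j).1) fun j _ => (hh j).2
    have h4 := mul_le_mul_of_nonneg_left ih (hg a).1
    have h5 := mul_le_of_le_one_left h1 (hg a).2
    have h6 := mul_le_mul_of_nonneg_right (neg_abs_le (g a - h a)) h2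
    have h7 := mul_le_of_le_one_right (abs_nonneg (g a - h a)) h3
    nlinarith only [h4, h5, h6, h7]

variable {V VB : Type} [Fintype V] [DecidableEq V] [Nonempty V] [Fintype VB] [DecidableEq VB]

lemma e_ki (κ : VB → V → ℝ) {U : Finset VB} {b : VB} (hb : b ∈ U) (G : V → (VB → V) → ℝ)
    (hG : ∀ t x a, G t (Function.update x b a) = G t x) :
    𝔼 x : VB → V, (∏ u ∈ U, κ u (x u)) * G (x b) x =
      𝔼 t, κ b t * 𝔼 x : VB → V, (∏ u ∈ U.erase b, κ u (x u)) * G t x := by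
  rw [ex_update b, expect_comm]
  refine expect_congr rfl fun t _ => ?_
  rw [mul_expect]
  refine expect_congr rfl fun x _ => ?_
  rw [← mul_prod_erase U _ hb, Function.update_self, hG, mul_assoc,
    prod_congr rfl fun u hu => by rw [Function.update_of_ne (ne_of_mem_erase hu)]]

lemma e_ki0 (κ : VB → V → ℝ) (h : ∀ u, 𝔼 t, κ u t = 1) (U : Finset VB) :
    𝔼 x : VB → V, ∏ u ∈ U, κ u (x u) = 1 := by
  rw [ex_prod_indep U (fun u => {u}) (fun a _ b _ e => disjoint_singleton.2 e)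
    (fun u x => κ u (x u)) fun u _ x y e => by rw [e u (mem_singleton_self u)]]
  exact prod_eq_one fun u _ => (Mom_coord u (κ u)).trans (h u)

lemma e_ki1 (κ : VB → V → ℝ) (h : ∀ u, 𝔼 t, κ u t = 1) {U : Finset VB} {b : VB} (hb : b ∈ U)
    (Ψ : V → ℝ) : 𝔼 x : VB → V, (∏ u ∈ U, κ u (x u)) * Ψ (x b) = 𝔼 t, κ b t * Ψ t := by
  rw [e_ki κ hb (fun t _ => Ψ t) fun _ _ _ => rfl]
  simp only [← expect_mul, e_ki0 κ h, one_mul]

lemma e_rs (π : V → ℕ) (r : VB) (F : (VB → V) → ℝ) :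
    𝔼 x, F x = 𝔼 x : VB → V, 𝔼 t, ekk π (x r) t * F (Function.update x r t) := by
  rw [ex_update r, ex_update r fun x => 𝔼 t, ekk π (x r) t * F (Function.update x r t)]
  refine expect_congr rfl fun x _ => ?_
  simp only [Function.update_self, Function.update_idem]
  rw [expect_comm]
  refine expect_congr rfl fun t _ => ?_
  simp only [← expect_mul, ekk_comm _ t, ekk_one, one_mul]

lemma e_edge (π : V → ℕ) (Rt : Finset VB) (E : (VB → ℕ) → Prop) (z : (VB → ℕ) → VB → V)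
    (hz : ∀ τ, E τ → ∀ r ∈ Rt, π (z τ r) = τ r) {a b : VB} (hab : a ≠ b) (hb : b ∉ Rt)
    (Δ : V × V → ℝ) {c : ℝ} (hc : 0 ≤ c) (h : ∀ τ, E τ → ece π Δ (z τ a, z τ b) ≤ c) :
    𝔼 x : VB → V, ind (E fun u => π (x u)) * 𝔼 y : VB → V,
      (∏ u ∈ Rtᶜ, ekk π (z (fun u => π (x u)) u) (y u)) *
        Δ (Rt.piecewise x y a, Rt.piecewise x y b) ≤ c := by
  have h1 : ∀ τ e, ind (E τ) * ece π Δ e ≤ c ∨ E τ := fun τ e => by
    by_cases k : E τ
    · exact Or.inr k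
    · rw [ind_neg k, zero_mul]; exact Or.inl hc
  have h2 : ∀ e : V × V, ece π Δ e = 𝔼 s, ekk π e.1 s * 𝔼 t, ekk π e.2 t * Δ (s, t) := fun e => by
    simp only [ece, ex_prod, mul_expect, mul_assoc]
  simp only [piecewise_eq_of_notMem _ _ _ hb]
  by_cases ha : a ∈ Rt
  · simp only [piecewise_eq_of_mem _ _ _ ha,
      fun x : VB → V => e_ki1 (fun u => ekk π (z (fun u => π (x u)) u)) (fun _ => ekk_one _)
        (mem_compl.2 hb) fun t => Δ (x a, t)]
    rw [e_rs π a]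
    refine ex_le hc fun x => ?_
    have h3 : ∀ t, ekk π (x a) t * (ind (E fun u => π (Function.update x a t u)) *
        𝔼 s, ekk π (z (fun u => π (Function.update x a t u)) b) s *
          Δ (Function.update x a t a, s)) = ind (E fun u => π (x u)) * (ekk π (x a) t *
        𝔼 s, ekk π (z (fun u => π (x u)) b) s * Δ (t, s)) := fun t => by
      by_cases k : ekk π (x a) t = 0
      · rw [k]; ring
      have : (fun u => π (Function.update x a t u)) = fun u => π (x u) := funext fun u => by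
        by_cases e : u = a
        · rw [e, Function.update_self, ekk_ne k]
        · rw [Function.update_of_ne e]
      rw [this, Function.update_self]; ring
    simp only [h3, ← mul_expect]
    refine (h1 _ (x a, z (fun u => π (x u)) b)).elim (fun k => by rwa [h2] at k) fun k => ?_
    rw [ind_pos k, one_mul, ← ekk_eq (hz _ k a ha)]
    exact (h2 _).symm.trans_le (h _ k)
  · refine ex_le hc fun x => ?_
    simp only [piecewise_eq_of_notMem _ _ _ ha]
    rw [e_ki (fun u => ekk π (z (fun u => π (x u)) u)) (mem_compl.2 ha) (fun t y => Δ (t, y b))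
      fun _ _ _ => by rw [Function.update_of_ne hab.symm]]
    simp only [fun t => e_ki1 (fun u => ekk π (z (fun u => π (x u)) u)) (fun _ => ekk_one _)
      (mem_erase.2 ⟨hab.symm, mem_compl.2 hb⟩) fun s => Δ (t, s)]
    refine (h1 _ (z (fun u => π (x u)) a, z (fun u => π (x u)) b)).elim
      (fun k => by rwa [h2] at k) fun k => ?_
    rw [ind_pos k, one_mul]
    exact (h2 _).symm.trans_le (h _ k)

variable {E0 EZ : Type} [Fintype E0] [DecidableEq E0] [Fintype EZ] [DecidableEq EZ]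
  (e0 : E0 → VB × VB) (ez : EZ → VB × VB) (Rt : Finset VB)

/-- Density of extensions of the roots. -/
noncomputable def eXt (w : EZ → V × V → ℝ) (x : VB → V) : ℝ :=
  𝔼 y : VB → V, ∏ f, w f (exf ez (Rt.piecewise x y) f)

lemma eXt_congr (w : EZ → V × V → ℝ) {x x2 : VB → V} (h : ∀ r ∈ Rt, x r = x2 r) :
    eXt ez Rt w x = eXt ez Rt w x2 :=
  expect_congr rfl fun y _ => by rw [piecewise_congr Rt h fun _ _ => rfl]

lemma eXt_lam (w : EZ → V × V → ℝ) (D : (VB → V) → ℝ)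
    (hD : ∀ x x2, (∀ r ∈ Rt, x r = x2 r) → D x = D x2) :
    Lam ez D w = 𝔼 x, D x * eXt ez Rt w x := by
  rw [Lam, ex_resample Rt]
  refine expect_congr rfl fun x _ => ?_
  rw [eXt, mul_expect]
  exact expect_congr rfl fun y _ => by rw [hD _ x fun r hr => piecewise_eq_of_mem _ _ _ hr]

/-- The shape of a structure whose core extends in every graph of minimum degree `d0`. -/
structure ExS (d0 : ℝ) : Prop where
  ne : ∀ f, (ez f).1 ≠ (ez f).2
  ne0 : ∀ g, (e0 g).1 ≠ (e0 g).2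
  core : ∀ g, (e0 g).1 ∈ Rt ∧ (e0 g).2 ∈ Rt
  out : ∀ f, (ez f).1 ∉ Rt ∨ (ez f).2 ∉ Rt
  sep : ∀ f g, g ≠ f → ((ez g).1 ≠ (ez f).1 ∧ (ez g).1 ≠ (ez f).2) ∨
    ((ez g).2 ≠ (ez f).1 ∧ (ez g).2 ≠ (ez f).2)
  ext : ∀ (X : Type) [Finite X] (Γ : SimpleGraph X),
    (∀ v, d0 * Nat.card X ≤ (Γ.neighborSet v).ncard) → ∀ x : VB → X,
      (∀ g, Γ.Adj (x (e0 g).1) (x (e0 g).2)) →
        ∃ z : VB → X, (∀ r ∈ Rt, z r = x r) ∧ ∀ f, Γ.Adj (z (ez f).1) (z (ez f).2)

variable {e0 ez Rt}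

lemma e_close {d0 : ℝ} (S : ExS e0 ez Rt d0) {w w2 : EZ → V × V → ℝ} (hw : ∀ f, Unit01 (w f))
    (hw2 : ∀ f, Unit01 (w2 f)) {κ : ℝ} (hκ : 0 < κ) :
    𝔼 x, ind (eXt ez Rt w x + κ ≤ eXt ez Rt w2 x) ≤ (∑ f, cut fun e => w2 f e - w f e) / κ := by
  have hD : ∀ x x2 : VB → V, (∀ r ∈ Rt, x r = x2 r) → ind (eXt ez Rt w x + κ ≤ eXt ez Rt w2 x) =
      ind (eXt ez Rt w x2 + κ ≤ eXt ez Rt w2 x2) := fun x x2 h => by
    rw [eXt_congr ez Rt w h, eXt_congr ez Rt w2 h]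
  have h1 := Cut_all ez S.ne S.sep (D := fun x => ind (eXt ez Rt w x + κ ≤ eXt ez Rt w2 x))
    ⟨fun _ => Lay_ind _, fun f => (S.out f).imp
      (fun h x a => hD _ _ fun r hr => Function.update_of_ne (fun e : r = _ => h (e ▸ hr)) _ _)
      fun h x a => hD _ _ fun r hr => Function.update_of_ne (fun e : r = _ => h (e ▸ hr)) _ _⟩
    hw2 hw
  rw [eXt_lam ez Rt _ _ hD, eXt_lam ez Rt _ _ hD, ← expect_sub_distrib] at h1
  rw [le_div_iff₀ hκ, expect_mul]
  refine le_trans (ex_mono fun x => ?_) ((le_abs_self _).trans h1)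
  by_cases h : eXt ez Rt w x + κ ≤ eXt ez Rt w2 x
  · rw [ind_pos h]; linarith only [h]
  · rw [ind_neg h]; simp

lemma e_gam {d0 : ℝ} (S : ExS e0 ez Rt d0) (hd : 0 ≤ d0) (G : V × V → Prop)
    (hG : ∀ e, G e → G e.swap) (T : V → Prop) {d1 β : ℝ}
    (h1 : ∀ v, ¬ T v → d1 ≤ 𝔼 b, ind (G (v, b))) (h2 : 𝔼 v, ind (T v) ≤ β)
    (h3 : d0 * Fintype.card V + 1 ≤ (d1 - β) * Fintype.card V) (x : VB → V)
    (x1 : ∀ u, ¬ T (x u)) (x2 : Set.InjOn x Rt) (x3 : ∀ g, G (exf e0 x g)) :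
    ∃ z : VB → V, (∀ r ∈ Rt, z r = x r) ∧ (∀ u, ¬ T (z u)) ∧ ∀ f, G (exf ez z f) := by
  classical
  have hV : (0 : ℝ) < Fintype.card V := Nat.cast_pos.2 Fintype.card_pos
  let Γ : SimpleGraph {v // ¬ T v} := SimpleGraph.fromRel fun a b => G (a.1, b.1)
  suffices hΓ : ∀ v, d0 * Nat.card {v // ¬ T v} ≤ (Γ.neighborSet v).ncard by
    obtain ⟨z, z1, z2⟩ := S.ext _ Γ hΓ (fun u => ⟨x u, x1 u⟩) fun g =>
      (SimpleGraph.fromRel_adj _ _ _).2 ⟨fun h => S.ne0 g
        (x2 (S.core g).1 (S.core g).2 (congrArg Subtype.val h)), Or.inl (x3 g)⟩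
    exact ⟨fun u => (z u).1, fun r hr => congrArg Subtype.val (z1 r hr), fun u => (z u).2,
      fun f => ((SimpleGraph.fromRel_adj _ _ _).1 (z2 f)).2.elim id (hG _)⟩
  intro v
  have a1 : (Nat.card {v // ¬ T v} : ℝ) ≤ Fintype.card V := by
    rw [Nat.card_eq_fintype_card]
    exact_mod_cast Fintype.card_subtype_le _
  have a2 : ((univ.filter fun b : V => ¬ T b ∧ b ≠ v.1 ∧ G (v.1, b)).card : ℝ) ≤
      (Γ.neighborSet v).ncard := by
    rw [← Set.ncard_image_of_injective _ Subtype.val_injective, ← Set.ncard_coe_finset]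
    refine Nat.cast_le.2 (Set.ncard_le_ncard fun b hb => ?_)
    obtain ⟨b1, b2, b3⟩ := (mem_filter.1 (mem_coe.1 hb)).2
    exact ⟨⟨b, b1⟩, (SimpleGraph.mem_neighborSet _ _ _).2
      ((SimpleGraph.fromRel_adj (fun a b : {v // ¬ T v} => G (a.1, b.1)) v ⟨b, b1⟩).2
        ⟨fun h => b2 (congrArg Subtype.val h).symm, Or.inl b3⟩), rfl⟩
  have a3 : ∀ b, ind (G (v.1, b)) ≤
      ind (¬ T b ∧ b ≠ v.1 ∧ G (v.1, b)) + ind (T b) + ind (b ∈ ({v.1} : Finset V)) := fun b =>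
    (ind_mono (r := ((¬ T b ∧ b ≠ v.1 ∧ G (v.1, b)) ∨ T b) ∨ b ∈ ({v.1} : Finset V)) fun h => by
      rw [mem_singleton]; tauto).trans ((ind_or_le _ _).trans (add_le_add (ind_or_le _ _) le_rfl))
  have a4 := sum_le_sum fun b (_ : b ∈ univ) => a3 b
  rw [sum_add_distrib, sum_add_distrib, sum_ind, P1_sum_mem, card_singleton, Nat.cast_one] at a4
  have a5 := h1 v.1 v.2
  rw [Fintype.expect_eq_sum_div_card, le_div_iff₀ hV] at a5
  rw [Fintype.expect_eq_sum_div_card, div_le_iff₀ hV] at h2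
  have a6 := mul_le_mul_of_nonneg_left a1 hd
  have a7 : ∑ b, ind (G (v.1, b)) = ((univ.filter fun b => G (v.1, b)).card : ℝ) := sum_ind _ _
  have a8 : ∑ b, ind (¬ T b ∧ b ≠ v.1 ∧ G (v.1, b)) = _ := sum_ind _ _
  linarith only [a2, a4, a5, a6, a7, a8, h2, h3]

lemma e_low (π : V → ℕ) {W1 W2 : V × V → ℝ} (u1 : Unit01 W1) (u2 : Unit01 W2) (hm : EMeas π W1)
    {a b : ℝ} (a0 : 0 ≤ a) (b0 : 0 ≤ b) (b1 : b ≤ 1) (x z : VB → V)
    (z1 : ∀ r ∈ Rt, π (z r) = π (x r)) (z2 : ∀ u, b ≤ emu π (z u))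
    (z3 : ∀ f, a ≤ W1 (exf ez z f)) {N : ℝ} (hN : ∑ f, 𝔼 y : VB → V,
      (∏ u ∈ Rtᶜ, ekk π (z u) (y u)) * |W2 (exf ez (Rt.piecewise x y) f) -
        W1 (exf ez (Rt.piecewise x y) f)| ≤ N) (h : N ≤ a ^ Fintype.card EZ) :
    b ^ Fintype.card VB * (a ^ Fintype.card EZ - N) ≤ eXt ez Rt (fun _ => W2) x := by
  have k0 : ∀ y : VB → V, 0 ≤ ∏ u ∈ Rtᶜ, ekk π (z u) (y u) := fun y =>
    prod_nonneg fun _ _ => ekk_nonneg _ _
  have h1 : ∀ y : VB → V, b ^ Rtᶜ.card * ((∏ u ∈ Rtᶜ, ekk π (z u) (y u)) * a ^ Fintype.card EZ -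
      ∑ f, (∏ u ∈ Rtᶜ, ekk π (z u) (y u)) * |W2 (exf ez (Rt.piecewise x y) f) -
        W1 (exf ez (Rt.piecewise x y) f)|) ≤ ∏ f, W2 (exf ez (Rt.piecewise x y) f) := fun y => by
    have p0 : 0 ≤ ∏ f, W2 (exf ez (Rt.piecewise x y) f) := prod_nonneg fun f _ => (u2 _).1
    rw [← mul_sum, ← mul_sub, ← mul_assoc]
    by_cases k : ∏ u ∈ Rtᶜ, ekk π (z u) (y u) = 0
    · rw [k, mul_zero, zero_mul]; exact p0
    have c1 : ∀ u, π (z u) = π (Rt.piecewise x y u) := fun u => by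
      by_cases e : u ∈ Rt
      · rw [piecewise_eq_of_mem _ _ _ e, z1 u e]
      · rw [piecewise_eq_of_notMem _ _ _ e]
        exact ekk_ne (prod_ne_zero_iff.1 k u (mem_compl.2 e))
    have c2 : a ^ Fintype.card EZ ≤ ∏ f, W1 (exf ez (Rt.piecewise x y) f) := by
      rw [← card_univ, ← prod_const]
      exact prod_le_prod (fun _ _ => a0) fun f _ => (z3 f).trans_eq (hm _ _ (c1 _) (c1 _))
    have c3 := e_prod univ (fun f => W2 (exf ez (Rt.piecewise x y) f))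
      (fun f => W1 (exf ez (Rt.piecewise x y) f)) (fun _ => u2 _) fun _ => u1 _
    have c4 : b ^ Rtᶜ.card * ∏ u ∈ Rtᶜ, ekk π (z u) (y u) ≤ 1 := by
      rw [← prod_const, ← prod_mul_distrib]
      refine prod_le_one (fun _ _ => mul_nonneg b0 (ekk_nonneg _ _)) fun u _ => ?_
      rw [ekk, mul_div_assoc', div_le_one (emu_pos _ _)]
      exact (mul_le_of_le_one_right b0 (ind_le_one _)).trans (z2 u)
    exact (mul_le_mul_of_nonneg_left (by linarith only [c2, c3])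
      (mul_nonneg (pow_nonneg b0 _) (k0 y))).trans (mul_le_of_le_one_left p0 c4)
  refine le_trans ?_ (ex_mono h1)
  rw [← mul_expect, expect_sub_distrib, ← expect_mul,
    e_ki0 (fun u => ekk π (z u)) fun _ => ekk_one _, one_mul, expect_sum_comm]
  exact mul_le_mul (pow_le_pow_of_le_one b0 b1 (card_le_univ _)) (by linarith only [hN])
    (by linarith only [h]) (pow_nonneg b0 _)

lemma e_fin {d0 : ℝ} (S : ExS e0 ez Rt d0) (hd0 : 0 ≤ d0) {w : EZ → V × V → ℝ}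
    (hw : ∀ f, Unit01 (w f)) {W1 W2 ρ : V × V → ℝ} {π : V → ℕ} {s : ℕ} (hs : ∀ v, π v < s)
    (u1 : Unit01 W1) (u2 : Unit01 W2) (hm : EMeas π W1) (s1 : ∀ e, W1 e.swap = W1 e)
    (s2 : ∀ e, W2 e.swap = W2 e) {a b g d θ β κ : ℝ} (a0 : 0 < a) (a1 : a ≤ 1) (b0 : 0 < b)
    (b1 : b ≤ 1) (hb : s * b ≤ a) (hθ : 0 < θ) (hβ : a + 5 * a / θ ≤ β)
    (hn : d0 * Fintype.card V + 1 ≤ (d - θ - β) * Fintype.card V) (g1 : g ≤ a)
    (g2 : (s : ℝ) ^ 2 * g ≤ a) (k0 : 0 < κ) (g3 : g ≤ a * κ)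
    (k1 : 4 * κ ≤ b ^ Fintype.card VB * a ^ Fintype.card EZ)
    (h1 : 𝔼 e, |W2 e - W1 e| ≤ a * a ^ (Fintype.card EZ + 1))
    (h2 : cut (fun e => ρ e - W2 e) ≤ g) (h3 : ∀ f, cut (fun e => ρ e - w f e) ≤ g)
    (h4 : dfc d ρ ≤ g) :
    𝔼 e, ρ e * ind (¬ (a ≤ W1 e ∧ ece π (fun e => |W2 e - W1 e|) e < a ^ (Fintype.card EZ + 1))) ≤
      4 * a ∧
    𝔼 x : VB → V, ind ((∀ g, ¬ ¬ (a ≤ W1 (exf e0 x g) ∧
      ece π (fun e => |W2 e - W1 e|) (exf e0 x g) < a ^ (Fintype.card EZ + 1))) ∧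
        eXt ez Rt w x < κ) ≤ Fintype.card VB * β + (Fintype.card VB : ℝ) ^ 2 / Fintype.card V +
        4 * (Fintype.card EZ * a) := by
  set c := a ^ (Fintype.card EZ + 1) with hc
  have c0 : 0 < c := by positivity
  have c1 : c ≤ 1 := pow_le_one₀ a0.le a1
  set Δ : V × V → ℝ := fun e => |W2 e - W1 e| with hΔ
  have Δs : ∀ e, Δ e.swap = Δ e := fun e => by simp only [hΔ, s1, s2]
  set G : V × V → Prop := fun e => a ≤ W1 e ∧ ece π Δ e < c with hG
  have m1 : 𝔼 e, ind (c ≤ ece π Δ e) ≤ a := by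
    refine (ex_markov (ece_nonneg fun _ => abs_nonneg _) c0).trans ?_
    have := ece_test (π := π) (w := Δ) (φ := fun _ => 1) fun _ _ _ _ => rfl
    simp only [mul_one] at this
    rw [this, div_le_iff₀ c0]
    exact h1
  have m2 : 𝔼 e, Δ e ≤ a := h1.trans (mul_le_of_le_one_right a0.le c1)
  have m3 : ∀ e, W1 e ≤ ind (G e) + a + ind (c ≤ ece π Δ e) := fun e => by
    have := ind_nonneg (c ≤ ece π Δ e)
    by_cases k : G e
    · rw [ind_pos k]; linarith only [this, (u1 e).2, a0]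
    · rw [ind_neg k]
      by_cases k2 : c ≤ ece π Δ e
      · rw [ind_pos k2]; linarith only [(u1 e).2, a0]
      · linarith only [this, not_le.1 fun h => k ⟨h, not_le.1 k2⟩]
  constructor
  · have e1 := e_box hs (fun e => ρ e - W2 e) (φ := fun e => ind (¬ G e)) (fun _ => Lay_ind _)
      fun e z z1 z2 => by simp only [hG, hm e z z1 z2, ece_meas π Δ e z z1 z2]
    have e2 : ∀ e, ρ e * ind (¬ G e) ≤
        (ρ e - W2 e) * ind (¬ G e) + (Δ e + a + ind (c ≤ ece π Δ e)) := fun e => by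
      have := m3 e
      have k0 : W2 e - W1 e ≤ Δ e := le_abs_self _
      have k1 : 0 ≤ Δ e := abs_nonneg _
      by_cases k : G e
      · rw [ind_neg (not_not.2 k)]; linarith only [ind_nonneg (c ≤ ece π Δ e), a0, k1]
      · rw [ind_neg k] at this
        rw [ind_pos k]; linarith only [this, k0]
    refine (ex_mono e2).trans ?_
    simp only [expect_add_distrib, Fintype.expect_const]
    linarith only [e1, m1, m2, g2, mul_le_mul_of_nonneg_left h2 (sq_nonneg (s : ℝ))]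
  set T : V → Prop := fun v => emu π v < b ∨ 𝔼 t, ind (G (v, t)) < d - θ with hT
  have t1 : 𝔼 v, ind (T v) ≤ β := by
    have e1 : dfc d W1 ≤ 3 * a := by
      have k1 := dfc_cut d ρ W2
      have k2 := (dfc_cut d W2 W1).trans (add_le_add le_rfl (cut_le_l1 _))
      linarith only [k1, k2, h2, h4, g1, m2]
    have e2 := ex_markov (f := fun v => max (d - 𝔼 t, W1 (v, t)) 0 + a +
      𝔼 t, ind (c ≤ ece π Δ (v, t))) (fun v => add_nonneg (add_nonneg (le_max_right _ _) a0.le)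
        (expect_nonneg fun _ _ => ind_nonneg _)) hθ
    have e3 : ∀ v, ind (T v) ≤ ind (emu π v < b) + ind (θ ≤ max (d - 𝔼 t, W1 (v, t)) 0 + a +
        𝔼 t, ind (c ≤ ece π Δ (v, t))) := fun v =>
      (ind_or_le _ _).trans (add_le_add le_rfl (ind_mono fun h => by
        have k := ex_mono fun t => m3 (v, t)
        simp only [expect_add_distrib, Fintype.expect_const] at k
        linarith only [h, k, le_max_left (d - 𝔼 t, W1 (v, t)) 0]))
    refine (ex_mono e3).trans ?_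
    rw [expect_add_distrib]
    refine (add_le_add ((e_small hs b0.le).trans hb) (e2.trans
      (div_le_div_of_nonneg_right ?_ hθ.le))).trans hβ
    rw [ex_prod] at m1
    simp only [expect_add_distrib, Fintype.expect_const]
    unfold dfc at e1
    linarith only [e1, m1]
  set E : (VB → ℕ) → Prop := fun τ => ∃ z : VB → V, (∀ r ∈ Rt, π (z r) = τ r) ∧
    (∀ u, ¬ T (z u)) ∧ ∀ f, G (exf ez z f) with hE
  obtain ⟨z, hz⟩ : ∃ z : (VB → ℕ) → VB → V, ∀ τ, E τ → (∀ r ∈ Rt, π (z τ r) = τ r) ∧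
      (∀ u, ¬ T (z τ u)) ∧ ∀ f, G (exf ez (z τ) f) :=
    ⟨fun τ => Classical.epsilon _, fun τ h => Classical.epsilon_spec h⟩
  set N : (VB → V) → ℝ := fun x => ∑ f, ind (E fun u => π (x u)) * 𝔼 y : VB → V,
    (∏ u ∈ Rtᶜ, ekk π (z (fun u => π (x u)) u) (y u)) * Δ (exf ez (Rt.piecewise x y) f) with hN
  have n1 : 𝔼 x, N x ≤ Fintype.card EZ * c := by
    rw [expect_sum_comm, ← card_univ, ← nsmul_eq_mul]
    refine sum_le_card_nsmul _ _ _ fun f _ => ?_
    rcases S.out f with k | k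
    · refine le_of_eq_of_le ?_ (e_edge π Rt E z (fun τ h => (hz τ h).1) (S.ne f).symm k Δ c0.le
        fun τ h => (ece_swap Δs (exf ez (z τ) f)).trans_le ((hz τ h).2.2 f).2.le)
      exact expect_congr rfl fun x _ => congrArg _ (expect_congr rfl fun y _ =>
        congrArg _ (Δs _).symm)
    · exact e_edge π Rt E z (fun τ h => (hz τ h).1) (S.ne f) k Δ c0.le
        fun τ h => ((hz τ h).2.2 f).2.le
  have n2 := ex_markov (f := N) (fun x => sum_nonneg fun f _ => mul_nonneg (ind_nonneg _)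
    (expect_nonneg fun y _ => mul_nonneg (prod_nonneg fun _ _ => ekk_nonneg _ _) (abs_nonneg _)))
    (half_pos (pow_pos a0 (Fintype.card EZ)))
  have n3 : (𝔼 x, N x) / (a ^ Fintype.card EZ / 2) ≤ 2 * (Fintype.card EZ * a) := by
    rw [div_le_iff₀ (by positivity)]
    refine n1.trans_eq ?_
    rw [hc]; ring
  have n4 := e_close S hw (fun _ => u2) k0
  have n5 : (∑ f, cut fun e => W2 e - w f e) / κ ≤ 2 * (Fintype.card EZ * a) := by
    rw [div_le_iff₀ k0]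
    refine (sum_le_card_nsmul _ _ (2 * (a * κ)) fun f _ => ?_).trans_eq (by simp; ring)
    have k := cut_tri W2 ρ (w f)
    rw [cut_comm W2 ρ] at k
    linarith only [k, h2, h3 f, g3]
  have n6 : 𝔼 x : VB → V, ∑ u, ind (T (x u)) ≤ Fintype.card VB * β := by
    rw [expect_sum_comm, ← card_univ, ← nsmul_eq_mul]
    exact sum_le_card_nsmul _ _ _ fun u _ => (Mom_coord u fun v => ind (T v)).trans_le t1
  have n7 := ex_not_inj (κ := V) (univ : Finset VB)
  rw [card_univ] at n7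
  have pt : ∀ x : VB → V, ind ((∀ g, ¬ ¬ G (exf e0 x g)) ∧ eXt ez Rt w x < κ) ≤
      ∑ u, ind (T (x u)) + ind (¬ Set.InjOn x (univ : Finset VB)) +
      ind (a ^ Fintype.card EZ / 2 ≤ N x) +
      ind (eXt ez Rt w x + κ ≤ eXt ez Rt (fun _ => W2) x) := fun x => by
    refine (ind_mono (r := (((∃ u ∈ univ, T (x u)) ∨ ¬ Set.InjOn x (univ : Finset VB)) ∨
      a ^ Fintype.card EZ / 2 ≤ N x) ∨ eXt ez Rt w x + κ ≤ eXt ez Rt (fun _ => W2) x)
      fun h => ?_).trans ((ind_or_le _ _).trans (add_le_add ((ind_or_le _ _).trans (add_le_add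
        ((ind_or_le _ _).trans (add_le_add (ind_exists_le _ _) le_rfl)) le_rfl)) le_rfl))
    by_contra k
    simp only [not_or, not_not, not_le, not_exists, not_and] at k
    obtain ⟨⟨⟨q1, q2⟩, q3⟩, q4⟩ := k
    obtain ⟨z0, y1, y2, y3⟩ := e_gam S hd0 G (fun e k => ⟨(s1 e).symm ▸ k.1,
      (ece_swap Δs e).trans_lt k.2⟩) T (fun v k => not_lt.1 fun k2 => k (Or.inr k2)) t1 hn x
      (fun u => q1 u (mem_univ u)) (q2.mono (coe_subset.2 (subset_univ _)))
      fun g => not_not.1 (h.1 g)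
    have q5 : E fun u => π (x u) := ⟨z0, fun r hr => by rw [y1 r hr], y2, y3⟩
    have q6 := e_low (ez := ez) (Rt := Rt) π u1 u2 hm a0.le b0.le b1 x _ (hz _ q5).1
      (fun u => not_lt.1 fun k2 => (hz _ q5).2.1 u (Or.inl k2)) (fun f => ((hz _ q5).2.2 f).1)
      (N := a ^ Fintype.card EZ / 2) (le_trans (le_of_eq (by
        simp only [hN, ind_pos q5, one_mul, hΔ])) q3.le) (half_le_self (pow_pos a0 _).le)
    linarith only [q6, q4, h.2, k1]
  refine (ex_mono pt).trans ?_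
  simp only [expect_add_distrib]
  linarith only [n2, n3, n4, n5, n6, n7]

theorem e_dense {d0 d ε : ℝ} (S : ExS e0 ez Rt d0) (hd0 : 0 ≤ d0) (hd : d0 < d) (hε : 0 < ε) :
    ∃ γ κ n0 : ℝ, 0 < γ ∧ 0 < κ ∧ ∀ (V : Type) [Fintype V] [DecidableEq V] [Nonempty V],
      n0 ≤ Fintype.card V → ∀ w : EZ → V × V → ℝ, (∀ f, Unit01 (w f)) → ∃ P : V × V → Prop,
        ∀ ρ : V × V → ℝ, (∀ e, ρ e.swap = ρ e) → (∀ f, cut (fun e => ρ e - w f e) ≤ γ) →
          dfc d ρ ≤ γ → 𝔼 e, ρ e * ind (P e) ≤ ε ∧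
            𝔼 x : VB → V, ind ((∀ g, ¬ P (exf e0 x g)) ∧ eXt ez Rt w x < κ) ≤ ε := by
  have v0 : (0 : ℝ) ≤ Fintype.card VB := Nat.cast_nonneg _
  have z0 : (0 : ℝ) ≤ Fintype.card EZ := Nat.cast_nonneg _
  obtain ⟨θ, hθ⟩ : ∃ θ, θ = (d - d0) / 3 := ⟨_, rfl⟩
  have θ0 : 0 < θ := by linarith only [hθ, hd]
  obtain ⟨β, β0, β1, β2⟩ : ∃ β : ℝ, 0 < β ∧ β ≤ θ ∧ (Fintype.card VB + 1) * β ≤ ε / 3 :=
    ⟨min θ (ε / 3 / (Fintype.card VB + 1)), by positivity, min_le_left _ _,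
      (le_div_iff₀' (by positivity)).1 (min_le_right _ _)⟩
  obtain ⟨a, a0, a1, a2, a3⟩ : ∃ a : ℝ, 0 < a ∧ a ≤ 1 ∧ (1 + 5 / θ) * a ≤ β ∧
      (Fintype.card EZ + 1) * a ≤ ε / 12 :=
    ⟨min 1 (min (β / (1 + 5 / θ)) (ε / 12 / (Fintype.card EZ + 1))), by positivity,
      min_le_left _ _, (le_div_iff₀' (by positivity)).1 ((min_le_right _ _).trans (min_le_left _ _)),
      (le_div_iff₀' (by positivity)).1 ((min_le_right _ _).trans (min_le_right _ _))⟩
  let k : ℕ → ℝ := fun s => (a / (s + 1)) ^ Fintype.card VB * a ^ Fintype.card EZ / 4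
  have b1 : ∀ s : ℕ, a / (s + 1) ≤ 1 := fun s =>
    (div_le_self a0.le (le_add_of_nonneg_left (Nat.cast_nonneg s))).trans a1
  have k0 : ∀ s, 0 < k s := fun s => by positivity
  have k1 : ∀ s, k s ≤ 1 := fun s => by
    have := mul_le_one₀ (pow_le_one₀ (n := Fintype.card VB) (by positivity) (b1 s))
      (by positivity) (pow_le_one₀ (n := Fintype.card EZ) a0.le a1)
    simp only [k]
    linarith only [this]
  obtain ⟨M, hM⟩ := e_strong (ε := a * a ^ (Fintype.card EZ + 1)) (by positivity)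
    (fun s => (a / (s + 1)) ^ 2 * (a * k s) / 2) fun s => by have := k0 s; positivity
  refine ⟨(a / (M + 1)) ^ 2 * (a * k M) / 2, k M,
    1 / θ + (Fintype.card VB : ℝ) ^ 2 / (ε / 3), by have := k0 M; positivity, k0 M,
    fun V _ _ _ hn w hw => ?_⟩
  rcases isEmpty_or_nonempty EZ with h | ⟨⟨f0⟩⟩
  · refine ⟨fun _ => False, fun ρ _ _ _ => ⟨by simpa [ind_neg] using hε.le,
      ex_le hε.le fun x => (ind_neg fun h => ?_).trans_le hε.le⟩⟩
    have := h.2
    simp only [eXt, univ_eq_empty, prod_empty, Fintype.expect_const] at this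
    linarith only [this, k1 M]
  let w0 : V × V → ℝ := fun e => (w f0 e + w f0 e.swap) / 2
  have u0 : Unit01 w0 := fun e => by
    constructor <;> simp only [w0] <;>
      linarith only [(hw f0 e).1, (hw f0 e).2, (hw f0 e.swap).1, (hw f0 e.swap).2]
  have s0 : ∀ e, w0 e.swap = w0 e := fun e => by simp only [w0, Prod.swap_swap, add_comm]
  obtain ⟨s, π, π2, -, m1, m2, m3, m4⟩ := hM V w0 u0
  refine ⟨fun e => ¬ (a ≤ ece π w0 e ∧ ece π (fun e => |ece π2 w0 e - ece π w0 e|) e <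
    a ^ (Fintype.card EZ + 1)), fun ρ r1 r2 r3 => ?_⟩
  have hV : (0 : ℝ) < Fintype.card V := Nat.cast_pos.2 Fintype.card_pos
  have c1 : a / (M + 1) ≤ a / (s + 1) := div_le_div_of_nonneg_left a0.le (by positivity)
    (by exact_mod_cast Nat.succ_le_succ m1)
  have c2 : k M ≤ k s := by simp only [k]; gcongr
  have c3 : (a / (M + 1)) ^ 2 * (a * k M) ≤ (a / (s + 1)) ^ 2 * (a * k s) := by
    have := k0 M
    gcongr
  have c4 : s * (a / (s + 1)) ≤ a := by
    rw [mul_div_assoc', div_le_iff₀ (by positivity)]; linarith only [a0]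
  have c5 : cut (fun e => ρ e - w0 e) ≤ (a / (M + 1)) ^ 2 * (a * k M) / 2 := by
    refine cut_le fun t => ?_
    have e1 := (le_cut _ t).trans (r2 f0)
    have e2 := (le_cut _ t).trans ((cut_swap fun e => ρ e - w f0 e).trans (r2 f0))
    have e3 : 𝔼 e, (ρ e - w0 e) * ct t e = ((𝔼 e, (ρ e - w f0 e) * ct t e) +
        𝔼 e, (ρ e.swap - w f0 e.swap) * ct t e) / 2 := by
      rw [← expect_add_distrib, expect_div]
      exact expect_congr rfl fun e _ => by rw [r1]; simp only [w0]; ring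
    rw [e3, abs_le] at *
    constructor <;> linarith only [e1.1, e1.2, e2.1, e2.2]
  have c6 : (a / (s + 1)) ^ 2 * (a * k s) ≤ a * k s :=
    mul_le_of_le_one_left (by have := k0 s; positivity) (pow_le_one₀ (by positivity) (b1 s))
  have c7 : a * k s ≤ a := mul_le_of_le_one_right a0.le (k1 s)
  have c8 : 0 < (a / (M + 1)) ^ 2 * (a * k M) := by have := k0 M; positivity
  have n1 : 1 / θ ≤ Fintype.card V := (le_add_of_nonneg_right (by positivity)).trans hn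
  have n2 : (Fintype.card VB : ℝ) ^ 2 / (ε / 3) ≤ Fintype.card V :=
    (le_add_of_nonneg_left (by positivity)).trans hn
  rw [div_le_iff₀' θ0] at n1
  rw [div_le_iff₀' (by positivity), ← div_le_iff₀ hV] at n2
  obtain ⟨f1, f2⟩ := e_fin S hd0 hw (ρ := ρ) m2 (ece_unit u0) (ece_unit (π := π2) u0)
    (ece_meas π w0) (ece_swap s0) (ece_swap s0) (g := (a / (s + 1)) ^ 2 * (a * k s)) (d := d)
    (β := β) a0 a1 (by positivity) (b1 s) c4 θ0 (le_of_eq_of_le (by ring) a2)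
    (by nlinarith only [n1, hθ, β1, hV]) (c6.trans c7)
    (by
      rw [← mul_assoc, ← mul_pow]
      exact (mul_le_of_le_one_left (by have := k0 s; positivity)
        (pow_le_one₀ (by positivity) (c4.trans a1))).trans c7)
    (k0 s) c6 (le_of_eq (by simp only [k]; ring)) m3
    (by linarith only [cut_tri ρ w0 (ece π2 w0), c5, m4, c3])
    (fun f => by linarith only [r2 f, c3, c8]) (by linarith only [r3, c3, c8])
  refine ⟨f1.trans (by nlinarith only [a3, a0, z0, hε]), le_trans (ex_mono fun x =>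
    ind_mono fun h => ⟨h.1, h.2.trans_le c2⟩) (f2.trans ?_)⟩
  linarith only [β2, β0, a3, a0, n2]

end Pool.Agent.Work.MP_d4a230_co.U
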