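import Pool.Agent.Work.MP_d4a230_co.E.Ext
import Pool.Agent.Work.MP_d4a230_co.C.Main

/-!
Hitting sets for the embeddings of the core.
-/

namespace Pool.Agent.Work.MP_d4a230_co.U

open Finset Filter Topology Pool.Agent.Work.MP_07f1b5_pr
open scoped BigOperators

set_option linter.unusedSectionVars false

section scl

variable {V VB E0 EZ : Type} [Fintype V] [DecidableEq V] [Nonempty V] [Fintype VB] [DecidableEq VB]
  [Fintype E0] [DecidableEq E0] [Fintype EZ] [DecidableEq EZ] (eb : E0 ⊕ EZ → VB × VB)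

/-- The family of models. -/
noncomputable def ewm (Q Mx : ℝ) (K m : ℕ) (c : EZ → Fin (2 * m ^ 2 + 1) → Bool ×
    ((E0 ⊕ EZ → Fin K → Option (V × V)) ⊕ (Finset V × Finset V))) (f : EZ) (e : V × V) : ℝ :=
  clip (bsum m (tests eb Q Mx K (.inr f) fun _ => 1) (c f) e)

theorem e_scl (hne : ∀ f, (eb (.inr f)).1 ≠ (eb (.inr f)).2)
    (ν : E0 ⊕ EZ → V × V → ℝ) {Q Mx C : ℝ} {m K : ℕ} (hQ : 1 ≤ Q) (hM : 0 < Mx) (hK : 0 < K)
    (hm : 0 < m) (hνQ : ∀ f, 𝔼 e, ν f e ≤ Q)
    (hS : ∀ f, S2 eb (.inr f) (fun g e => ν g e + 1) (Q * (Fintype.card V : ℝ) ^ 2 / K) ≤ C)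
    (hP : ∀ f c, 𝔼 e, (ν (.inr f) e - 1) *
      max (bsum m (tests eb Q Mx K (.inr f) fun _ => 1) c e) 0 ≤ 1 / 2)
    (a : E0 ⊕ EZ → V × V → ℝ) (ha : ∀ f e, 0 ≤ a f e ∧ a f e ≤ ν f e) :
    ∃ c, (∀ f, cut (fun e => a (.inr f) e - ewm eb Q Mx K m c f e) ≤ 1 / m) ∧
      |Lam eb (fun _ => 1) a -
        Lam eb (fun _ => 1) (Sum.elim (fun g => a (.inl g)) (ewm eb Q Mx K m c))| ≤
        Fintype.card EZ * (Mx / m + C / Mx) := by
  have hQ0 : (0 : ℝ) < Q := lt_of_lt_of_le one_pos hQ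
  have hD : Unit01 fun _ : VB → V => (1 : ℝ) := Cut_unit
  have hB : ∀ f : EZ, ∃ c, ∀ t, |𝔼 e, (a (.inr f) e -
      clip (bsum m (tests eb Q Mx K (.inr f) fun _ => 1) c e)) *
      tests eb Q Mx K (.inr f) (fun _ => 1) t e| ≤ 1 / m := fun f =>
    boost m hm (tests eb Q Mx K (.inr f) fun _ => 1)
      (fun t e => abs_le.2 ⟨by linarith only [(tests_unit eb hQ0.le hM K (.inr f) hD t e).1],
        (tests_unit eb hQ0.le hM K (.inr f) hD t e).2⟩) (Sum.inr (∅, ∅))
      (fun e => by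
        change ind _ * ind _ = 0
        rw [ind_neg (notMem_empty _), zero_mul]) (ν (.inr f)) (a (.inr f)) (ha _) (hP f)
  choose c hc2 using hB
  refine ⟨c, ?_⟩
  have hw2 : ∀ f e, ewm eb Q Mx K m c f e =
      clip (bsum m (tests eb Q Mx K (.inr f) fun _ => 1) (c f) e) := fun _ _ => rfl
  generalize ewm eb Q Mx K m c = w2 at hw2 ⊢
  have hu : ∀ f, Unit01 (w2 f) := fun f e => by rw [hw2]; exact clip_unit _
  have ht : ∀ f t, |𝔼 e, (a (.inr f) e - w2 f e) * tests eb Q Mx K (.inr f) (fun _ => 1) t e| ≤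
      1 / m := fun f t => by simp only [hw2]; exact hc2 f t
  have hν : ∀ f e, 0 ≤ ν f e := fun f e => (ha f e).1.trans (ha f e).2
  refine ⟨fun f => cut_le fun t => ht f (Sum.inr t), ?_⟩
  have h1 : ∀ s : Finset EZ, |Lam eb (fun _ => 1) a - Lam eb (fun _ => 1)
      (Sum.elim (fun g => a (.inl g)) (s.piecewise w2 fun f => a (.inr f)))| ≤
      s.card * (Mx / m + C / Mx) := by
    intro s
    induction s using Finset.induction_on with
    | empty =>
      have : Sum.elim (fun g => a (.inl g)) (fun f => a (.inr f)) = a := by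
        funext g; cases g <;> rfl
      simp [this]
    | insert f s hf ih =>
      have h2 := replace eb (.inr f) (hne f) hD
        (Sum.elim (fun g => a (.inl g)) (s.piecewise w2 fun f => a (.inr f)))
        (fun g e => ν g e + 1) (w2 f) (γ := 1 / m) hQ0 hM hK
        (by
          rintro (g | g) e
          · exact ⟨(ha _ e).1, (ha (.inl g) e).2.trans (le_add_of_nonneg_right zero_le_one)⟩
          rw [Sum.elim_inr]
          by_cases hg : g ∈ s
          · rw [piecewise_eq_of_mem _ _ _ hg]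
            exact ⟨(hu g e).1, by linarith only [(hu g e).2, hν (.inr g) e]⟩
          · rw [piecewise_eq_of_notMem _ _ _ hg]
            exact ⟨(ha _ e).1, by linarith only [(ha (.inr g) e).2]⟩)
        (by
          rintro (g | g)
          · exact (ex_mono fun e => (ha _ e).2).trans (hνQ _)
          rw [Sum.elim_inr]
          by_cases hg : g ∈ s
          · rw [piecewise_eq_of_mem _ _ _ hg]
            exact ex_le hQ0.le fun e => (hu g e).2.trans hQ
          · rw [piecewise_eq_of_notMem _ _ _ hg]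
            exact (ex_mono fun e => (ha _ e).2).trans (hνQ _))
        (fun e => ⟨(hu f e).1, by linarith only [(hu f e).2, hν (.inr f) e]⟩)
        (fun T => by
          rw [Sum.elim_inr, piecewise_eq_of_notMem _ _ _ hf]
          exact ht f (Sum.inl T))
      rw [Sum.update_elim_inr, ← piecewise_insert] at h2
      rw [card_insert_of_notMem hf]
      have h3 := div_le_div_of_nonneg_right (hS f) hM.le
      have h4 := abs_sub_le (Lam eb (fun _ => 1) a) (Lam eb (fun _ => 1)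
        (Sum.elim (fun g => a (.inl g)) (s.piecewise w2 fun f => a (.inr f))))
        (Lam eb (fun _ => 1)
          (Sum.elim (fun g => a (.inl g)) ((insert f s).piecewise w2 fun f => a (.inr f))))
      have h5 : Mx * (1 / (m : ℝ)) = Mx / m := by ring
      push_cast
      linarith only [ih, h2, h3, h4, h5]
  have h2 := h1 univ
  rwa [piecewise_univ, card_univ] at h2

end scl

section hit

variable {V V0 E0 G : Type} [Fintype V] [DecidableEq V] [Nonempty V] [Fintype V0] [DecidableEq V0]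
  [Fintype E0] [DecidableEq E0] [Fintype G] [DecidableEq G] (e0 : E0 → V0 × V0)

/-- Embeddings of the core into the variables. -/
def EEm (q : G × Unit → Sym2 V) (D : (V0 → V) → Prop) (T : E0 → Finset (G × Unit))
    (ι : E0 → G × Unit) : Prop :=
  ∃ x : V0 → V, Function.Injective x ∧ D x ∧ ∀ g, ι g ∈ T g ∧ q (ι g) = s(x (e0 g).1, x (e0 g).2)

/-- Hitting sets. -/
def EHs (q : G × Unit → Sym2 V) (D : (V0 → V) → Prop) (T : E0 → Finset (G × Unit))
    (A : Finset (G × Unit)) : Prop := ∀ ι, EEm e0 q D T ι → ∃ g, ι g ∈ A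

variable {e0} {q : G × Unit → Sym2 V} {D : (V0 → V) → Prop} {T : E0 → Finset (G × Unit)}

lemma EEm.inj (hi : Function.Injective fun g => s((e0 g).1, (e0 g).2)) {ι : E0 → G × Unit}
    (h : EEm e0 q D T ι) : Function.Injective fun g => (ι g).1 := by
  obtain ⟨x, hx, -, e2⟩ := h
  intro f g e3
  have e4 : ι f = ι g := Prod.ext e3 rfl
  refine hi (Sym2.map.injective hx ?_)
  simp only [Sym2.map_mk]
  rw [← (e2 f).2, ← (e2 g).2, e4]

lemma e_cnt [Nonempty G] [Nonempty E0] (hi : Function.Injective fun g => s((e0 g).1, (e0 g).2))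
    {C1 : ℝ} (hC : (Fintype.card V : ℝ) ^ Fintype.card V0 ≤ C1 *
      ((Fintype.card V : ℝ) ^ 2 / (2 * Fintype.card (G × Unit))) ^ Fintype.card E0)
    (q : G × Unit → Sym2 V) (D : (V0 → V) → Prop) (T : E0 → Finset (G × Unit)) :
    ∃ A, EHs e0 q D T A ∧ (A.card : ℝ) ≤ C1 * Cnt e0 q (fun x => ind (D x)) T := by
  classical
  obtain ⟨g0⟩ := ‹Nonempty E0›
  let S := univ.filter (EEm e0 q D T)
  refine ⟨S.image fun ι => ι g0, fun ι h => ⟨g0, mem_image_of_mem _ (mem_filter.2 ⟨mem_univ _, h⟩)⟩,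
    (Nat.cast_le.2 card_image_le).trans ?_⟩
  have t0 : ∀ (x : V0 → V) (ι : E0 → G × Unit), 0 ≤ ind (D x) *
      (ind (Function.Injective fun f => (ι f).1) *
      ∏ f, ind (ι f ∈ T f) * hit (q (ι f)) (exf e0 x f)) := fun x ι =>
    mul_nonneg (ind_nonneg _) (mul_nonneg (ind_nonneg _)
      (prod_nonneg fun f _ => mul_nonneg (ind_nonneg _) (hit_nonneg _ _)))
  have h3 : (S.card : ℝ) ≤ ∑ x : V0 → V, ind (D x) * ∑ ι : E0 → G × Unit,
      ind (Function.Injective fun f => (ι f).1) *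
        ∏ f, ind (ι f ∈ T f) * hit (q (ι f)) (exf e0 x f) := by
    simp only [mul_sum]
    rw [sum_comm, ← P1_sum_mem]
    refine sum_le_sum fun ι _ => ?_
    by_cases e : ι ∈ S
    · have e1 := (mem_filter.1 e).2
      obtain ⟨x, -, hD, e2⟩ := id e1
      refine le_trans ?_ (single_le_sum (fun x _ => t0 x ι) (mem_univ x))
      rw [ind_pos e, ind_pos hD, ind_pos (e1.inj hi), one_mul, one_mul]
      refine le_trans (le_of_eq prod_const_one.symm)
        (prod_le_prod (fun _ _ => zero_le_one) fun f _ => ?_)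
      rw [ind_pos (e2 f).1, one_mul, hit,
        ind_pos (q := q (ι f) = s((exf e0 x f).1, (exf e0 x f).2)) (e2 f).2, one_mul]
      exact le_add_of_nonneg_right (ind_nonneg _)
    · rw [ind_neg e]
      exact sum_nonneg fun x _ => t0 x ι
  rw [← Fintype.card_mul_expect, Fintype.card_fun, Nat.cast_pow] at h3
  rw [Cnt, ← mul_assoc]
  exact h3.trans (mul_le_mul_of_nonneg_right hC (expect_nonneg fun x _ => by
    rw [mul_sum]; exact sum_nonneg fun ι _ => t0 x ι))

lemma e_lam {D : (V0 → V) → ℝ} (hD : ∀ x, 0 ≤ D x) :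
    Cnt e0 q D T ≤ Lam e0 D fun g => den q (T g) := by
  rw [Cnt, Lam, mul_expect]
  refine ex_mono fun x => ?_
  rw [mul_left_comm]
  refine mul_le_mul_of_nonneg_left ?_ (hD x)
  simp only [den, Lay_sum (T _), prod_mul_distrib, prod_const, card_univ]
  refine mul_le_mul_of_nonneg_left ?_ (by positivity)
  rw [prod_univ_sum, Fintype.piFinset_univ]
  refine sum_le_sum fun ι _ => ?_
  rw [← prod_mul_distrib]
  exact mul_le_of_le_one_left (prod_nonneg fun f _ => mul_nonneg (ind_nonneg _) (hit_nonneg _ _))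
    (ind_le_one _)

variable (e0) in
/-- Least size of a hitting set among all variables. -/
noncomputable def ehn (D : (V0 → V) → Prop) (q : G × Unit → Sym2 V) : ℝ :=
  univ.inf' univ_nonempty fun A : Finset (G × Unit) =>
    (A.card : ℝ) + ind (¬ EHs e0 q D (fun _ => univ) A) * Fintype.card (G × Unit)

lemma ehn_le {A : Finset (G × Unit)} (h : EHs e0 q D (fun _ => univ) A) : ehn e0 D q ≤ A.card := by
  refine (inf'_le _ (mem_univ A)).trans_eq ?_
  rw [ind_neg (not_not.2 h), zero_mul, add_zero]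

lemma ehn_opt [Nonempty E0] (D : (V0 → V) → Prop) (q : G × Unit → Sym2 V) :
    ∃ A, EHs e0 q D (fun _ => univ) A ∧ (A.card : ℝ) ≤ ehn e0 D q := by
  obtain ⟨A, -, h⟩ := exists_mem_eq_inf' univ_nonempty fun A : Finset (G × Unit) =>
    (A.card : ℝ) + ind (¬ EHs e0 q D (fun _ => univ) A) * Fintype.card (G × Unit)
  by_cases k : EHs e0 q D (fun _ => univ) A
  · exact ⟨A, k, by rw [ehn, h, ind_neg (not_not.2 k), zero_mul, add_zero]⟩
  · refine ⟨univ, fun ι _ => ⟨Classical.arbitrary _, mem_univ _⟩, ?_⟩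
    rw [ehn, h, ind_pos k, one_mul, card_univ]
    exact le_add_of_nonneg_left (Nat.cast_nonneg _)

lemma ehn_one [Nonempty E0] {q2 : G × Unit → Sym2 V} (i : G × Unit) (h : ∀ j, j ≠ i → q j = q2 j) :
    ehn e0 D q2 - ehn e0 D q ≤ 1 := by
  obtain ⟨A, h1, h2⟩ := ehn_opt (e0 := e0) D q
  have h3 : EHs e0 q2 D (fun _ => univ) (insert i A) := fun ι ⟨x, x1, x2, x3⟩ => by
    by_cases k : ∃ g, ι g = i
    · obtain ⟨g, hg⟩ := k
      exact ⟨g, hg ▸ mem_insert_self _ _⟩
    · obtain ⟨g, hg⟩ := h1 ι ⟨x, x1, x2, fun g =>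
        ⟨mem_univ _, (h _ fun e => k ⟨g, e⟩).trans (x3 g).2⟩⟩
      exact ⟨g, mem_insert_of_mem hg⟩
  have h4 : ((insert i A).card : ℝ) ≤ A.card + 1 := by exact_mod_cast card_insert_le i A
  linarith only [ehn_le h3, h2, h4]

lemma e_pairs [Nonempty G] (q : G × Unit → Sym2 V) (R : Finset (G × Unit)) (P : V × V → Prop) :
    ∃ A : Finset (G × Unit), (∀ i ∈ R, ∀ e, P e → q i = s(e.1, e.2) → i ∈ A) ∧
      (A.card : ℝ) ≤ 2 * Fintype.card (G × Unit) * 𝔼 e, den q R e * ind (P e) := by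
  classical
  refine ⟨R.filter fun i => ∃ e, P e ∧ q i = s(e.1, e.2), fun i hi e h1 h2 =>
    mem_filter.2 ⟨hi, e, h1, h2⟩, ?_⟩
  rw [Lay_test, mul_assoc, mul_div_cancel₀ _ (by positivity), ← Lay_sum, mul_sum, ← sum_ind]
  refine sum_le_sum fun i _ => ?_
  have t0 : ∀ e, 0 ≤ hit (q i) e * ind (P e) := fun e => mul_nonneg (hit_nonneg _ _) (ind_nonneg _)
  rw [Lay_tm, mul_div_cancel₀ _ two_ne_zero]
  by_cases k : ∃ e, P e ∧ q i = s(e.1, e.2)
  · obtain ⟨e, e1, e2⟩ := id k
    refine le_trans ?_ (single_le_sum (fun e _ => t0 e) (mem_univ e))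
    rw [ind_pos k, ind_pos e1, hit, ind_pos e2, one_mul, mul_one]
    exact le_add_of_nonneg_right (ind_nonneg _)
  · rw [ind_neg k]
    exact sum_nonneg fun e _ => t0 e

lemma e_avg [Nonempty E0] {L : Type} [Fintype L] [DecidableEq L] [Nonempty L]
    (hi : Function.Injective fun g => s((e0 g).1, (e0 g).2)) (col : E0 → L)
    (hc : Function.Injective col) (R : Finset (G × Unit)) (A : (G → L) → Finset (G × Unit))
    (hA : ∀ l, EHs e0 q D (fun g => R ∩ lay Unit l (col g)) (A l)) :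
    ∃ A2, EHs e0 q D (fun _ => R) A2 ∧ (A2.card : ℝ) ≤
      Fintype.card E0 * (Fintype.card L : ℝ) ^ Fintype.card E0 * 𝔼 l, ((A l).card : ℝ) := by
  classical
  set c : ℝ := Fintype.card E0 * (Fintype.card L : ℝ) ^ Fintype.card E0 with hc0
  have c0 : 0 ≤ c := by positivity
  refine ⟨univ.filter fun i => 1 ≤ c * 𝔼 l, ind (i ∈ A l), fun ι h => ?_, ?_⟩
  · by_contra k
    have k1 : ∀ g, c * 𝔼 l, ind (ι g ∈ A l) < 1 := fun g =>
      not_le.1 fun e => k ⟨g, mem_filter.2 ⟨mem_univ _, e⟩⟩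
    have k2 := Lay_col (fun g => (ι g).1) col hc
    rw [ind_pos (h.inj hi)] at k2
    have k3 : ∀ l : G → L, ∏ g, (Fintype.card L : ℝ) * ind (l (ι g).1 = col g) ≤
        (Fintype.card L : ℝ) ^ Fintype.card E0 * ∑ g, ind (ι g ∈ A l) := fun l => by
      by_cases e : ∀ g, l (ι g).1 = col g
      · obtain ⟨x, x1, x2, x3⟩ := h
        obtain ⟨g, hg⟩ := hA l ι ⟨x, x1, x2, fun g => ⟨mem_inter.2 ⟨(x3 g).1,
          mem_filter.2 ⟨mem_univ _, e g⟩⟩, (x3 g).2⟩⟩
        simp only [ind_pos (e _), mul_one, prod_const, card_univ]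
        exact le_mul_of_one_le_right (by positivity) ((ind_pos hg).ge.trans
          (single_le_sum (f := fun g => ind (ι g ∈ A l)) (fun _ _ => ind_nonneg _) (mem_univ g)))
      · obtain ⟨g, hg⟩ := not_forall.1 e
        rw [prod_eq_zero (mem_univ g) (by rw [ind_neg hg, mul_zero])]
        exact mul_nonneg (by positivity) (sum_nonneg fun _ _ => ind_nonneg _)
    have k4 := k2.symm.trans_le (ex_mono k3)
    rw [← mul_expect, expect_sum_comm] at k4
    have k5 := sum_lt_sum_of_nonempty univ_nonempty fun g (_ : g ∈ univ) => k1 g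
    rw [← mul_sum, sum_const, card_univ, nsmul_eq_mul, hc0, mul_assoc] at k5
    exact absurd (lt_of_mul_lt_mul_left k5 (Nat.cast_nonneg _)) (not_lt.2 k4)
  · simp only [← sum_ind, ← P1_sum_mem (A _), expect_sum_comm, mul_sum]
    refine sum_le_sum fun i _ => ?_
    by_cases e : 1 ≤ c * 𝔼 l, ind (i ∈ A l)
    · rw [ind_pos e]; exact e
    · rw [ind_neg e]; exact mul_nonneg c0 (expect_nonneg fun _ _ => ind_nonneg _)

end hit

end Pool.Agent.Work.MP_d4a230_co.U
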