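import Pool.Agent.Work.MP_d4a230_co.E.Count
import Pool.Agent.Work.MP_d4a230_co.E.Defs
import Pool.Agent.Work.MP_d4a230_co.C.Stmt

/-!
Assembly of the extension version.
-/

namespace Pool.Agent.Work.MP_d4a230_co.U

open Finset Filter Topology Pool.Agent.Work.MP_07f1b5_pr
open scoped BigOperators

set_option linter.unusedSectionVars false

variable {W W0 : Type} [Fintype W] [DecidableEq W] [Fintype W0] [DecidableEq W0]
  {H : SimpleGraph W} [DecidableRel H.Adj] {F : SimpleGraph W0} [DecidableRel F.Adj]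

variable (H F) in
/-- Homomorphisms of the core extend in graphs of large minimum degree. -/
def EExt (φ : W0 ↪ W) (d : ℝ) : Prop :=
  ∀ (V : Type) [Finite V] (Γ : SimpleGraph V),
    (∀ v, d * (Nat.card V : ℝ) ≤ ((Γ.neighborSet v).ncard : ℝ)) →
      ∀ ψ : F →g Γ, ∃ χ : H →g Γ, ∀ a, χ (φ a) = ψ a

variable {φ : W0 ↪ W}

lemma Core.exs (C : Core H F φ) {d : ℝ} (h : EExt H F φ d) :
    ExS (fun g => ceb H F φ (.inl g)) (fun f => ceb H F φ (.inr f)) (univ.map φ) d := by
  refine ⟨fun f => C.ne _, fun f => C.ne _,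
    fun g => ⟨mem_map_of_mem _ (mem_univ _), mem_map_of_mem _ (mem_univ _)⟩, fun f => ?_,
    fun f g e => Cut_ne (C.ne _) fun k => e ?_, fun X _ Γ h1 x h2 => ?_⟩
  · by_contra h
    rw [not_or, not_not, not_not] at h
    refine f.2.2 (le_of_eq_of_le (ced_fin (F := F) (.inr f)) ?_)
    exact insert_subset h.1 (singleton_subset_iff.2 h.2)
  · rw [ceb_ed, ceb_ed] at k
    exact Sum.inr_injective (ced_inj k)
  · obtain ⟨χ, hχ⟩ := h X Γ h1 ⟨fun a => x (φ a), fun {a b} hab => by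
      have k := h2 ⟨s(a, b), by simpa using hab⟩
      rw [← SimpleGraph.mem_edgeSet] at k ⊢
      have e : s(x (φ a), x (φ b)) = Sym2.map (fun a => x (φ a)) s(a, b) := rfl
      rw [e, ← Dens_out s(a, b)]
      exact k⟩
    refine ⟨χ, fun r hr => ?_, fun f => χ.map_adj ?_⟩
    · obtain ⟨a, -, rfl⟩ := mem_map.1 hr
      exact hχ a
    · rw [← SimpleGraph.mem_edgeSet, ceb_ed]
      exact SimpleGraph.mem_edgeFinset.1 (C.ced_mem _)

theorem e_psi (C : Core H F φ) {d0 : ℝ} (hE : EExt H F φ d0) {N : ℕ → ℕ}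
    (R : Reg F ep1 id N fun _ => 1) {d : ℝ} (hd0 : 0 ≤ d0) (hd : d0 < d) {ε : ℝ} (hε : 0 < ε) :
    ∃ K : ℝ, 0 ≤ K ∧ ∀ᶠ n in atTop, 𝔼 y : Fin (N n) → Bool → Fin n, psK H F K d y ≤ ε := by
  obtain ⟨c, c0, hc⟩ := R.rate_bd
  have hA := RegK_aut (H := F)
  have h3 := C.h3
  have hk := C.hk
  obtain ⟨g0, hg0⟩ := card_pos.1 (show 0 < F.edgeFinset.card by omega)
  have : Nonempty F.edgeFinset := ⟨⟨g0, hg0⟩⟩
  obtain ⟨γ, A0, hγ, a0, h⟩ := e_count R (ceb H F φ) φ (fun g : F.edgeFinset => g.1.out)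
    (fun _ => rfl) (fun g g2 e => Subtype.ext ((Dens_out _).symm.trans (e.trans (Dens_out _))))
    (C.exs hE) (C.dc R.bal.hK) hd0 hd (Cc := c * aut F) (by positivity) (by
      filter_upwards [hc, R.pos] with n r1 r2
      simp only [id, Fintype.card_unique, mul_one, Fintype.card_coe] at r1 r2 ⊢
      have hn : (0 : ℝ) < n := by exact_mod_cast r2.1
      have hN : (0 : ℝ) < N n := by exact_mod_cast r2.1.trans_le r2.2
      obtain ⟨v, hv⟩ : ∃ v, Fintype.card W0 = v + 2 := ⟨Fintype.card W0 - 2, by omega⟩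
      obtain ⟨k, hk2⟩ : ∃ k, F.edgeFinset.card = k + 1 := ⟨F.edgeFinset.card - 1, by omega⟩
      have e : (n : ℝ) ^ Fintype.card W0 = rate F n (N n) 1 / F.edgeFinset.card * aut F * N n *
          ((n : ℝ) ^ 2 / (2 * N n)) ^ F.edgeFinset.card := by
        rw [rate, hv, hk2, Nat.add_sub_cancel, Nat.add_sub_cancel, div_pow, div_pow]
        field_simp
        ring
      rw [e]
      gcongr
      exact (div_le_self r1.1 (by exact_mod_cast (by omega))).trans r1.2) (half_pos hε)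
  refine ⟨1 / γ, by positivity, ?_⟩
  filter_upwards [h, R.pos, (tendsto_natCast_atTop_atTop (R := ℝ)).eventually_ge_atTop
    (A0 * (Fintype.card W : ℝ) ^ 2 / (ε / 2))] with n ⟨err, e0, e1, e2⟩ r2 r3
  simp only [id] at r2 e0 e1 e2
  have : Nonempty (Fin n) := ⟨⟨0, r2.1⟩⟩
  have hn : (0 : ℝ) < n := by exact_mod_cast r2.1
  have hN : (0 : ℝ) < N n := by exact_mod_cast r2.1.trans_le r2.2
  have pt : ∀ y : Fin (N n) → Bool → Fin n, psK H F (1 / γ) d y ≤ A0 * Cnt (ceb H F φ) (sp ep1 y)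
      (fun x => ind (¬ Set.InjOn x (univ : Finset W))) (fun _ => univ) + err y := fun y => by
    have m1 := fun T => cnt_mono (ceb H F φ) (sp ep1 y) (T := fun _ => T) (T2 := fun _ => univ)
      (D := fun x => ind (¬ Set.InjOn x (univ : Finset W))) (fun _ => ind_nonneg _)
      (fun _ => le_rfl) fun _ => subset_univ _
    have m0 : 0 ≤ A0 * Cnt (ceb H F φ) (sp ep1 y)
      (fun x => ind (¬ Set.InjOn x (univ : Finset W))) (fun _ => univ) + err y :=
      add_nonneg (mul_nonneg a0 (m1 univ).1) (e0 y)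
    refine ps_le y m0 fun T hT => ?_
    have m2 := mul_nonneg (one_div_nonneg.2 hγ.le) (dfc_nonneg d (den (sp ep1 y) T))
    by_cases e : dfc d (den (sp ep1 y) T) ≤ γ
    · obtain ⟨A, a1, a3⟩ := e2 y T e
      have a2 := cnt_add (ceb H F φ) (sp ep1 y) (fun x => ind (Function.Injective x))
        (fun x => ind (¬ Set.InjOn x (univ : Finset W))) fun _ => T
      rw [cr_zero _ C.ced_surj hT, zero_add] at a2
      simp only [coe_univ, Set.injOn_univ, ind_not, add_sub_cancel] at a2 m1 ⊢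
      have a4 : Fr F (sp ep1 y) (T \ A) := fun S hS hs => by
        obtain ⟨x, -, rfl⟩ := mem_image.1 hS
        have h2 : ∀ g : F.edgeFinset, ∃ i ∈ T \ A, sp ep1 y i = s(x g.1.out.1, x g.1.out.2) :=
          fun g => mem_image.1 (hs (mem_image.2 ⟨g.1, g.2, by
            conv_lhs => rw [← Dens_out g.1]
            rfl⟩))
        choose ι b1 b2 using h2
        obtain ⟨g, hg⟩ := a1 ι ⟨x, x.injective, trivial, fun g => ⟨(mem_sdiff.1 (b1 g)).1, b2 g⟩⟩
        exact (mem_sdiff.1 (b1 g)).2 hg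
      have a5 := al_ge sdiff_subset a4
      have a6 : (T.card : ℝ) ≤ (T \ A).card + A.card := by
        have := le_card_sdiff A T
        exact_mod_cast (by omega : T.card ≤ (T \ A).card + A.card)
      rw [a2] at a3
      have a7 : ((T.card : ℝ) - alF F (sp ep1 y) T) / N n ≤ A0 * Cnt (ceb H F φ) (sp ep1 y)
          (fun x => 1 - ind (Function.Injective x)) (fun _ => T) + err y := by
        rw [div_le_iff₀' hN]
        linarith only [a3, a5, a6]
      linarith only [a7, m2, mul_le_mul_of_nonneg_left (m1 T).2 a0]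
    · obtain ⟨R2, -, -, a3⟩ := al_opt (F := F) (by omega) (sp ep1 y) T
      have a1 : ((T.card : ℝ) - alF F (sp ep1 y) T) / N n ≤ 1 := by
        have a2 : (T.card : ℝ) ≤ N n := by
          have := card_le_univ T
          rw [Fintype.card_prod, Fintype.card_fin, Fintype.card_unit, mul_one] at this
          exact_mod_cast this
        rw [div_le_one hN, a3]
        linarith only [a2, Nat.cast_nonneg (α := ℝ) R2.card]
      have a4 := mul_le_mul_of_nonneg_left (not_le.1 e).le (one_div_nonneg.2 hγ.le)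
      rw [one_div_mul_cancel hγ.ne'] at a4
      linarith only [a1, a4, m0]
  refine (ex_mono pt).trans ?_
  rw [expect_add_distrib, ← mul_expect]
  have b1 := (cnt_one (G := Fin (N n)) (V := Fin n) (ceb H F φ) ep1 R.ne
    (D := fun x => ind (¬ Set.InjOn x (univ : Finset W))) fun _ => ind_nonneg _).trans
    (ex_not_inj univ)
  rw [card_univ, Fintype.card_fin] at b1
  rw [div_le_iff₀ (by positivity), mul_comm (n : ℝ), ← div_le_iff₀ hn, mul_div_assoc] at r3
  linarith only [mul_le_mul_of_nonneg_left b1 a0, r3, e1]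

theorem e_up (C : Core H F φ) {z : ℝ} (hE : EExt H F φ z) (z0 : 0 ≤ z) {p : ℕ → ℝ} {K0 : ℕ} {c : ℝ} (hc : 0 < c)
    (R0 : HReg p (fun n => copies F (Fin n)) (Fintype.card W0) F.edgeFinset.card K0 (copyRate F c)
      (c ^ (F.edgeFinset.card - 1))) {d d2 : ℝ} (d1 : d2 < d) (hd : d ≤ 1)
    (hz : z < d) (hF : Whp p fun n => HEv (copies F (Fin n)) (d2 * p n * n) 0) :
    Whp p fun n => HEv (copies H (Fin n)) (d * p n * n) 0 := by
  obtain ⟨N, hN, hS⟩ := size R0.p0 R0.p1 R0.inf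
  obtain ⟨R, -, hp, -⟩ := reg_real C.hbal hc R0 hN
  have hk : 0 < F.edgeFinset.card := by have := C.h3; have := C.hk; omega
  obtain ⟨d3, d5, d4⟩ := exists_between hz
  refine (whp_iff R0.p0 R0.p1).2 fun β hβ => ?_
  obtain ⟨ε, hε⟩ : ∃ ε, ε = (d - d2) / 5 := ⟨_, rfl⟩
  have h0 : 0 < ε := by linarith only [hε, d1]
  obtain ⟨η, hη, h1⟩ := hlower_core R0 (ν := d) (d := d2) (b := β / 32) h0 (by linarith only [hε])
    (by linarith only [hε, hd, d1]) (by positivity) 0
  obtain ⟨K, hK, h2⟩ := e_psi C hE R z0 d5 (ε := ε * η / 64) (by positivity)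
  have w1 : Whp p fun n ω => ∃ y : Fin (N n) → Bool → Fin n, Inj y ∧ (∀ i, sp ep1 y i ∈ ω) ∧
      ¬ ε * η / 64 ≤ |psK H F K d3 y - 𝔼 y2 : Fin (N n) → Bool → Fin n, psK H F K d3 y2| := by
    refine whp_of_iid R0.p0 R0.p1 hp R0.inf hN ((hS 1 one_pos).mono R0.p0 R0.p1
      (Eventually.of_forall fun _ _ h => h.1)) _ (c := (ε * η / 64) ^ 2 / (2 * (1 + K) ^ 2))
      (by positivity) ?_
    filter_upwards [hN.eventually (lt_mem_nhds zero_lt_one), eventually_gt_atTop 0] with n h1 h2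
    have : Nonempty (Fin n) := ⟨⟨0, h2⟩⟩
    have h3 : (0 : ℝ) < N n := Nat.cast_pos.2 (Nat.pos_of_ne_zero fun h => by simp [h] at h1)
    refine (mcdiarmid (psK H F K d3) (by positivity) (by positivity)
      fun y i b => ps_lip hk hK y i b).trans_eq ?_
    rw [Fintype.card_fin]
    congr 3
    field_simp
  have w2 := (hF.and R0.p0 R0.p1 (hS (ε * η / 32 / (1 + K)) (by positivity))).and R0.p0 R0.p1 w1
  have l1 := hN.mul_const d3
  filter_upwards [h1, h2, (whp_iff R0.p0 R0.p1).1 w2 (β / 2) (by positivity),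
    l1.eventually (gt_mem_nhds (show 1 * d3 < d by linarith only [d4])),
    hN.eventually (lt_mem_nhds zero_lt_one), hN.eventually (gt_mem_nhds one_lt_two),
    R0.inf.eventually (eventually_gt_atTop 0)] with n e0 e1 e5 e2 e3 e6 e4
  have h1 : (0 : ℝ) < N n := Nat.cast_pos.2 (Nat.pos_of_ne_zero fun h => by simp [h] at e3)
  have h2 : (0 : ℝ) < n := pos_of_mul_pos_right e4 (R0.p0 n) |> fun h => h
  have h3 : 0 < p n := pos_of_mul_pos_left e4 h2.le |> fun h => h
  have : Nonempty (Fin n) := ⟨⟨0, Nat.cast_pos.1 h2⟩⟩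
  refine le_trans (Pr_mono (R0.p0 n) (R0.p1 n) fun ω hω => (em _).imp_left ?_)
    ((Pr_or_le (R0.p0 n) (R0.p1 n) _ _).trans ((add_le_add e0 e5).trans (by linarith only [hβ])))
  rintro ⟨⟨g0, -, g1⟩, y, g2, g3, g4⟩
  unfold HEv at hω
  simp only [not_forall] at hω
  obtain ⟨ω2, g5, g6, g7, -⟩ := hω
  obtain ⟨R2, r1, r2, L, r3, r4, r5⟩ := cr_pt (d := d3) (t := ε * η / 32) hk hK g2 g3 g5 g6 h1 g7 g1
    (by
      rw [Fintype.card_fin]
      refine le_of_eq_of_le ?_ (mul_le_mul_of_nonneg_right e2.le e4.le) |>.trans_eq (by ring)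
      field_simp)
    (by linarith only [e1, (abs_lt.1 (not_le.1 g4)).2])
  refine ⟨g0, R2, r1, r2, fun v => d * p n * n - L v, fun _ => 0, ?_,
    fun v => (sub_zero _).trans_le (r4 v), ?_⟩
  · rw [sum_eq_zero fun _ _ => zero_pow two_ne_zero]
    exact mul_nonneg (Nat.cast_nonneg _) (sum_nonneg fun _ _ => ind_nonneg _)
  · have a0 := mul_pos h0 e4
    have a1 : ∀ v, ind (ε * (p n * n) ≤ |d * p n * n - L v - d * (p n * n)|) ≤
        L v / (ε * (p n * n)) := fun v => by
      rw [show d * p n * n - L v - d * (p n * n) = -L v by ring, abs_neg, abs_of_nonneg (r3 v)]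
      by_cases h : ε * (p n * n) ≤ L v
      · rw [ind_pos h]; exact (one_le_div a0).2 h
      · rw [ind_neg h]; exact div_nonneg (r3 v) a0.le
    refine (sum_le_sum fun v _ => a1 v).trans ?_
    rw [← sum_div, div_le_iff₀ a0]
    have a2 : ε * η / 32 / (1 + K) + ε * η / 32 + K * (ε * η / 32 / (1 + K)) = ε * η / 16 := by
      field_simp
      ring
    rw [div_div, div_lt_iff₀ (by positivity)] at e6
    rw [a2] at r5
    have a3 := mul_le_mul_of_nonneg_left e6.le (mul_pos h0 hη).le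
    linarith only [r5, a3]

variable {p : ℕ → unitInterval} {K0 : ℕ} {c : ℝ}

theorem e_main (C : Core H F φ) {z : ℝ} (hE : ∀ d, z < d → EExt H F φ d) (hc : 0 < c)
    (R0 : HReg (fun n => p n) (fun n => copies F (Fin n)) (Fintype.card W0) F.edgeFinset.card K0
      (copyRate F c) (c ^ (F.edgeFinset.card - 1))) :
    chromThreshold H p ∈ Set.Icc (turanThreshold F p) (max (turanThreshold F p) z) := by
  refine ⟨(cr_main C C.edeg (by have := C.h3; have := C.hk; omega) hc R0).1, ?_⟩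
  rw [hchrom_eq]
  refine le_of_forall_gt_imp_ge_of_dense fun d hd => csInf_le ⟨0, fun _ h => h.1.le⟩ ?_
  obtain ⟨h1, h2⟩ := max_lt_iff.1 hd
  rw [turan_eq] at h1
  obtain ⟨d2, ⟨d0, h3⟩, d1⟩ := exists_lt_of_csInf_lt
    (by exact ⟨2, two_pos, turan_mem R0 one_lt_two⟩) h1
  refine ⟨d0.trans d1, 0, ?_⟩
  by_cases e : d ≤ 1
  · obtain ⟨z2, z3, z4⟩ := exists_between (max_lt h2 (d0.trans d1))
    exact e_up C (hE z2 (max_lt_iff.1 z3).1) (max_lt_iff.1 z3).2.le hc R0 d1 e z4 h3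
  · exact cr_big R0 (not_le.1 e)

theorem e_eq (C : Core H F φ) {z : ℝ} (hE : ∀ d, z < d → EExt H F φ d) (hc : 0 < c)
    (R0 : HReg (fun n => p n) (fun n => copies F (Fin n)) (Fintype.card W0) F.edgeFinset.card K0
      (copyRate F c) (c ^ (F.edgeFinset.card - 1))) (h : z ≤ chromThreshold F p) :
    chromThreshold H p = chromThreshold F p := by
  have h1 := e_main C hE hc R0
  rw [← chrom_eq_turan R0, max_eq_left h] at h1
  exact le_antisymm h1.2 h1.1

end Pool.Agent.Work.MP_d4a230_co.U
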