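import Pool.Agent.Work.MP_d4a230_co.C.Dense

/-!
Strong regularity for kernels with values in the unit interval.
-/

namespace Pool.Agent.Work.MP_d4a230_co.U

open Finset Filter Topology Pool.Agent.Work.MP_07f1b5_pr
open scoped BigOperators

set_option linter.unusedSectionVars false

variable {V : Type} [Fintype V] [DecidableEq V] [Nonempty V]

/-- Density of the class of `v`. -/
noncomputable def emu (π : V → ℕ) (v : V) : ℝ := 𝔼 b, ind (π v = π b)

/-- Uniform density on the class of `v`. -/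
noncomputable def ekk (π : V → ℕ) (v a : V) : ℝ := ind (π v = π a) / emu π v

/-- Average over the box of a pair. -/
noncomputable def ece (π : V → ℕ) (w : V × V → ℝ) (e : V × V) : ℝ :=
  𝔼 z : V × V, ekk π e.1 z.1 * ekk π e.2 z.2 * w z

/-- Constant on boxes. -/
def EMeas (π : V → ℕ) (φ : V × V → ℝ) : Prop :=
  ∀ e z : V × V, π e.1 = π z.1 → π e.2 = π z.2 → φ e = φ z

variable {π π2 : V → ℕ} {w : V × V → ℝ}

lemma emu_pos (π : V → ℕ) (v : V) : 0 < emu π v := by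
  rw [emu, Fintype.expect_eq_sum_div_card]
  refine div_pos (lt_of_lt_of_le ?_ (single_le_sum (f := fun b => ind (π v = π b))
    (fun _ _ => ind_nonneg _) (mem_univ v))) (Nat.cast_pos.2 Fintype.card_pos)
  rw [ind_pos rfl]
  exact one_pos

lemma emu_eq {v a : V} (h : π v = π a) : emu π v = emu π a := by rw [emu, emu, h]

lemma ekk_eq {v a : V} (h : π v = π a) : ekk π v = ekk π a := by
  funext b
  rw [ekk, ekk, h, emu_eq h]

lemma ekk_nonneg (v a : V) : 0 ≤ ekk π v a := div_nonneg (ind_nonneg _) (emu_pos π v).le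

lemma ekk_ne {v a : V} (h : ekk π v a ≠ 0) : π v = π a := by
  by_contra e
  exact h (by rw [ekk, ind_neg e, zero_div])

lemma ekk_comm (v a : V) : ekk π v a = ekk π a v := by
  by_cases h : π v = π a
  · rw [ekk, ekk, ind_pos h, ind_pos h.symm, emu_eq h]
  · rw [ekk, ekk, ind_neg h, ind_neg (Ne.symm h), zero_div, zero_div]

lemma ekk_one (v : V) : 𝔼 a, ekk π v a = 1 := by
  simp only [ekk, ← expect_div]
  exact div_self (emu_pos π v).ne'

lemma ekk_two (e : V × V) : 𝔼 z : V × V, ekk π e.1 z.1 * ekk π e.2 z.2 = 1 := by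
  rw [ex_prod]
  simp only [← mul_expect, ekk_one, mul_one]

lemma ece_meas (π : V → ℕ) (w : V × V → ℝ) : EMeas π (ece π w) := fun e z h1 h2 => by
  rw [ece, ece, ekk_eq h1, ekk_eq h2]

lemma ece_nonneg (hw : ∀ e, 0 ≤ w e) (e : V × V) : 0 ≤ ece π w e :=
  expect_nonneg fun z _ => mul_nonneg (mul_nonneg (ekk_nonneg _ _) (ekk_nonneg _ _)) (hw z)

lemma ece_unit (hw : Unit01 w) : Unit01 (ece π w) := fun e =>
  ⟨ece_nonneg (fun e => (hw e).1) e, (ex_mono fun z => mul_le_of_le_one_right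
    (mul_nonneg (ekk_nonneg _ _) (ekk_nonneg _ _)) (hw z).2).trans_eq (ekk_two e)⟩

lemma ece_swap (hw : ∀ e, w e.swap = w e) (e : V × V) : ece π w e.swap = ece π w e :=
  Fintype.expect_equiv (Equiv.prodComm V V) _ _ fun z => by
    rw [Equiv.prodComm_apply, hw, mul_comm (ekk π _ _)]
    rfl

lemma ece_test {φ : V × V → ℝ} (h : EMeas π φ) : 𝔼 e, ece π w e * φ e = 𝔼 e, w e * φ e := by
  simp only [ece, expect_mul]
  rw [expect_comm]
  refine expect_congr rfl fun z _ => ?_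
  rw [← mul_one (w z * φ z), ← ekk_two (π := π) z, mul_expect]
  refine expect_congr rfl fun e _ => ?_
  rw [ekk_comm e.1, ekk_comm e.2]
  by_cases h0 : ekk π z.1 e.1 * ekk π z.2 e.2 = 0
  · rw [h0]; ring
  · rw [h z e (ekk_ne (left_ne_zero_of_mul h0)) (ekk_ne (right_ne_zero_of_mul h0))]; ring

lemma ece_pyth (h : ∀ a b, π2 a = π2 b → π a = π b) :
    𝔼 e, (ece π2 w e - ece π w e) ^ 2 = (𝔼 e, ece π2 w e ^ 2) - 𝔼 e, ece π w e ^ 2 := by
  have h1 : 𝔼 e, ece π2 w e * ece π w e = 𝔼 e, ece π w e * ece π w e :=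
    (ece_test fun e z h1 h2 => ece_meas π w e z (h _ _ h1) (h _ _ h2)).trans
      (ece_test (ece_meas π w)).symm
  have h2 : ∀ e, (ece π2 w e - ece π w e) ^ 2 =
      ece π2 w e ^ 2 - 2 * (ece π2 w e * ece π w e) + ece π w e * ece π w e := fun e => by ring
  simp only [h2, expect_add_distrib, expect_sub_distrib, ← mul_expect, h1, ← sq]
  ring

lemma e_l1 {X : Type} [Fintype X] [Nonempty X] (u : X → ℝ) {g : ℝ} (hg : 0 < g)
    (h : 𝔼 e, u e ^ 2 ≤ g ^ 2) : 𝔼 e, |u e| ≤ g := by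
  have h1 : ∀ e, |u e| ≤ (u e ^ 2 / g + g) / 2 := fun e => by
    rw [le_div_iff₀ two_pos, ← sub_le_iff_le_add, le_div_iff₀ hg, ← sq_abs]
    nlinarith [sq_nonneg (|u e| - g)]
  refine (ex_mono h1).trans ?_
  simp only [← expect_div, expect_add_distrib, Fintype.expect_const]
  have h2 : (𝔼 e, u e ^ 2) / g ≤ g := by rw [div_le_iff₀ hg, ← sq]; exact h
  linarith

lemma e_en (hw : Unit01 w) (π : V → ℕ) : 0 ≤ 𝔼 e, ece π w e ^ 2 ∧ 𝔼 e, ece π w e ^ 2 ≤ 1 :=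
  ⟨expect_nonneg fun _ _ => sq_nonneg _, ex_le zero_le_one fun e =>
    pow_le_one₀ (ece_unit hw e).1 (ece_unit hw e).2⟩

lemma e_weak0 {g : ℝ} (hg : 0 < g) (j : ℕ) {s : ℕ} (hs : ∀ v, π v < s) :
    ∃ π2 : V → ℕ, (∀ v, π2 v < s * 4 ^ j) ∧ (∀ a b, π2 a = π2 b → π a = π b) ∧
      (cut (fun e => w e - ece π2 w e) ≤ g ∨
        (𝔼 e, ece π w e ^ 2) + j * g ^ 2 ≤ 𝔼 e, ece π2 w e ^ 2) := by
  induction j with
  | zero => exact ⟨π, by simpa using hs, fun _ _ h => h, Or.inr (by simp)⟩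
  | succ j ih =>
    obtain ⟨π2, h1, h2, h3⟩ := ih
    by_cases hc : cut (fun e => w e - ece π2 w e) ≤ g
    · exact ⟨π2, fun v => (h1 v).trans_le (by rw [pow_succ, ← mul_assoc]; omega), h2, Or.inl hc⟩
    have h4 := h3.resolve_left hc
    obtain ⟨t, ht⟩ := not_forall.1 fun h => hc (cut_le h)
    let π3 : V → ℕ := fun v => 4 * π2 v + (if v ∈ t.1 then 2 else 0) + if v ∈ t.2 then 1 else 0
    have k : ∀ a b, π3 a = π3 b → π2 a = π2 b ∧ (a ∈ t.1 ↔ b ∈ t.1) ∧ (a ∈ t.2 ↔ b ∈ t.2) := by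
      intro a b h
      simp only [π3] at h
      split_ifs at h <;> first | omega | (refine ⟨by omega, ?_, ?_⟩ <;> simp [*])
    refine ⟨π3, fun v => ?_, fun a b h => h2 a b (k a b h).1, Or.inr ?_⟩
    · have := h1 v
      simp only [π3, pow_succ, ← mul_assoc]
      split_ifs <;> omega
    · have a1 : EMeas π3 (ct t) := fun e z e1 e2 => by
        rw [ct, ct, ind_congr (k _ _ e1).2.1, ind_congr (k _ _ e2).2.2]
      have a2 : 𝔼 e, (w e - ece π2 w e) * ct t e = 𝔼 e, (ece π3 w e - ece π2 w e) * ct t e := by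
        simp only [sub_mul, expect_sub_distrib, ece_test a1]
      have a3 : g ^ 2 ≤ 𝔼 e, (ece π3 w e - ece π2 w e) ^ 2 := by
        by_contra h
        refine ht (a2 ▸ (le_cut _ t).trans ((cut_le_l1 _).trans (e_l1 _ hg (not_le.1 h).le)))
      rw [ece_pyth fun a b h => (k a b h).1] at a3
      push_cast
      linarith only [h4, a3]

lemma e_weak (hw : Unit01 w) {g : ℝ} (hg : 0 < g) {s : ℕ} (hs : ∀ v, π v < s) :
    ∃ π2 : V → ℕ, (∀ v, π2 v < s * 4 ^ (⌈1 / g ^ 2⌉₊ + 1)) ∧ (∀ a b, π2 a = π2 b → π a = π b) ∧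
      cut (fun e => w e - ece π2 w e) ≤ g := by
  obtain ⟨π2, h1, h2, h3⟩ := e_weak0 (w := w) hg (⌈1 / g ^ 2⌉₊ + 1) hs
  refine ⟨π2, h1, h2, h3.resolve_right fun h => ?_⟩
  have a1 := (div_le_iff₀ (pow_pos hg 2)).1 (Nat.le_ceil (1 / g ^ 2))
  push_cast at h
  linarith only [h, a1, (e_en hw π).1, (e_en hw π2).2, pow_pos hg 2]

theorem e_strong {ε : ℝ} (hε : 0 < ε) (g : ℕ → ℝ) (hg : ∀ s, 0 < g s) : ∃ M : ℕ,
    ∀ (V : Type) [Fintype V] [DecidableEq V] [Nonempty V] (w : V × V → ℝ), Unit01 w →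
      ∃ (s : ℕ) (π π2 : V → ℕ), 0 < s ∧ s ≤ M ∧ (∀ v, π v < s) ∧
        𝔼 e, |ece π2 w e - ece π w e| ≤ ε ∧ cut (fun e => w e - ece π2 w e) ≤ g s := by
  let S : ℕ → ℕ := fun t => Nat.rec 1 (fun _ s => s * 4 ^ (⌈1 / g s ^ 2⌉₊ + 1)) t
  have S1 : ∀ t, S (t + 1) = S t * 4 ^ (⌈1 / g (S t) ^ 2⌉₊ + 1) := fun _ => rfl
  have S2 : Monotone S := monotone_nat_of_le_succ fun t => by
    rw [S1]; exact Nat.le_mul_of_pos_right _ (by positivity)
  refine ⟨S (⌈1 / ε ^ 2⌉₊ + 1), fun V _ _ _ w hw => ?_⟩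
  by_contra hc
  have key : ∀ t ≤ ⌈1 / ε ^ 2⌉₊ + 1, ∃ π : V → ℕ, (∀ v, π v < S t) ∧
      t * ε ^ 2 ≤ 𝔼 e, ece π w e ^ 2 := by
    intro t
    induction t with
    | zero => exact fun _ => ⟨fun _ => 0, fun _ => Nat.one_pos, by simpa using (e_en hw _).1⟩
    | succ t ih =>
      intro ht
      obtain ⟨π, h1, h2⟩ := ih (by omega)
      obtain ⟨π2, h3, h4, h5⟩ := e_weak hw (hg (S t)) h1
      refine ⟨π2, h3, ?_⟩
      have a3 : ε ^ 2 ≤ 𝔼 e, (ece π2 w e - ece π w e) ^ 2 := by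
        by_contra h
        exact hc ⟨S t, π, π2, S2 (Nat.zero_le t), S2 (Nat.le_of_succ_le ht), h1, e_l1 _ hε (not_le.1 h).le, h5⟩
      rw [ece_pyth h4] at a3
      push_cast
      linarith only [h2, a3]
  obtain ⟨π, -, h⟩ := key _ le_rfl
  have a1 := (div_le_iff₀ (pow_pos hε 2)).1 (Nat.le_ceil (1 / ε ^ 2))
  push_cast at h
  linarith only [h, a1, (e_en hw π).2, pow_pos hε 2]

lemma e_box {s : ℕ} (hs : ∀ v, π v < s) (f : V × V → ℝ) {φ : V × V → ℝ} (hφ : Unit01 φ)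
    (h : EMeas π φ) : 𝔼 e, f e * φ e ≤ (s : ℝ) ^ 2 * cut f := by
  classical
  have h1 : ∀ e : V × V, f e * φ e = ∑ p ∈ range s ×ˢ range s,
      f e * (φ e * (ind (π e.1 = p.1) * ind (π e.2 = p.2))) := fun e => by
    rw [sum_eq_single_of_mem (π e.1, π e.2)
      (mem_product.2 ⟨mem_range.2 (hs _), mem_range.2 (hs _)⟩) fun p _ hp => by
        rw [← ind_and, ind_neg fun h => hp (Prod.ext h.1.symm h.2.symm), mul_zero, mul_zero],
      ind_pos rfl, ind_pos rfl, mul_one, mul_one]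
  simp only [h1]
  rw [expect_sum_comm]
  refine (sum_le_card_nsmul _ _ (cut f) fun p _ => (le_abs_self _).trans (Cut_test f ?_)).trans_eq
    (by simp [sq])
  by_cases e : ∃ z : V × V, π z.1 = p.1 ∧ π z.2 = p.2
  · obtain ⟨z, z1, z2⟩ := e
    refine ⟨fun a => φ z * ind (π a = p.1), fun a => ind (π a = p.2),
      fun a => Lay_mul (hφ z) (Lay_ind _), fun a => Lay_ind _, fun e => ?_⟩
    beta_reduce
    by_cases e1 : π e.1 = p.1 ∧ π e.2 = p.2
    · rw [h e z (e1.1.trans z1.symm) (e1.2.trans z2.symm), mul_assoc]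
    · rw [mul_assoc, ← ind_and, ind_neg e1, mul_zero, mul_zero]
  · refine ⟨fun _ => 0, fun _ => 0, fun _ => ⟨le_rfl, zero_le_one⟩, fun _ => ⟨le_rfl, zero_le_one⟩,
      fun z => ?_⟩
    beta_reduce
    rw [← ind_and, ind_neg fun h => e ⟨z, h⟩, mul_zero, mul_zero]

lemma e_small {s : ℕ} (hs : ∀ v, π v < s) {a : ℝ} (ha : 0 ≤ a) :
    𝔼 v, ind (emu π v < a) ≤ s * a := by
  have h1 : ∀ v, ind (emu π v < a) ≤ ∑ i ∈ range s, ind (emu π v < a ∧ π v = i) := fun v =>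
    (ind_mono fun h => ⟨π v, mem_range.2 (hs v), h, rfl⟩).trans (ind_exists_le _ _)
  refine (ex_mono h1).trans ?_
  rw [expect_sum_comm]
  refine (sum_le_card_nsmul _ _ a fun i _ => ?_).trans_eq (by simp)
  by_cases e : ∃ v, emu π v < a ∧ π v = i
  · obtain ⟨v, v1, v2⟩ := e
    exact (ex_mono fun b => ind_mono fun h => v2.trans h.2.symm).trans v1.le
  · exact ex_le ha fun v => (ind_neg fun h => e ⟨v, h⟩).trans_le ha

end Pool.Agent.Work.MP_d4a230_co.U
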