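import Pool.Agent.Work.MP_d4a230_co.E.Main

/-!
Retracts, and the core as a strictly balanced graph.
-/

namespace Pool.Agent.Work.MP_d4a230_co.U

open Finset Filter Topology Pool.Agent.Work.MP_07f1b5_pr
open scoped BigOperators

set_option linter.unusedSectionVars false

variable {W W0 : Type} [Fintype W] [DecidableEq W] [Fintype W0] [DecidableEq W0]
  {H : SimpleGraph W} [DecidableRel H.Adj] {F : SimpleGraph W0} [DecidableRel F.Adj]
  {φ : W0 ↪ W}

lemma e_ret (h : ∃ χ : H →g F, ∀ a, χ (φ a) = a) (d : ℝ) : EExt H F φ d := fun _ _ _ _ ψ =>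
  h.elim fun χ h => ⟨ψ.comp χ, fun a => congrArg ψ (h a)⟩

lemma e_col {α : Type} (κ : H.Coloring α) (h1 : ∀ a b, κ (φ a) ≠ κ (φ b) → F.Adj a b)
    (h2 : ∀ v, ∃ a, κ (φ a) = κ v) : ∃ χ : H →g F, ∀ a, χ (φ a) = a := by
  have h3 : ∀ v, ∃ a, κ (φ a) = κ v ∧ ∀ b, φ b = v → a = b := fun v => by
    by_cases h : ∃ b, φ b = v
    · obtain ⟨b, rfl⟩ := h
      exact ⟨b, rfl, fun _ e => φ.injective e.symm⟩
    · exact (h2 v).imp fun a ha => ⟨ha, fun b e => absurd ⟨b, e⟩ h⟩
  choose r r1 r2 using h3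
  exact ⟨⟨r, fun {u v} h => h1 _ _ (by rw [r1, r1]; exact κ.valid h)⟩, fun a => r2 _ a rfl⟩

lemma e_kst (C : Core H F φ) (hH : H.Colorable 2) {s t : ℕ}
    (e : F ≃g completeBipartiteGraph (Fin s) (Fin t)) : ∃ χ : H →g F, ∀ a, χ (φ a) = a := by
  obtain ⟨κ⟩ := hH
  obtain ⟨g, hg⟩ := card_pos.1 (show 0 < F.edgeFinset.card by have := C.h3; have := C.hk; omega)
  induction g using Sym2.ind with
  | _ x z =>
    have h0 : F.Adj x z := by simpa using hg
    have h1 : ∀ a b, F.Adj a b → κ (φ a) ≠ κ (φ b) := fun a b h => κ.valid ((C.adj a b).2 h)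
    have h2 : ∀ a b, F.Adj a b ↔ ((e a).isLeft ∧ (e b).isRight ∨ (e a).isRight ∧ (e b).isLeft) :=
      fun a b => e.map_adj_iff.symm
    refine e_col κ (fun a b h => ?_) fun v => ?_
    · by_contra k
      have k1 := h1 a x
      have k2 := h1 b x
      have k3 := h1 a z
      have k4 := h1 b z
      rw [h2] at h0 k k1 k2 k3 k4
      rcases e1 : e a with _ | _ <;> rcases e2 : e b with _ | _ <;> rcases e3 : e x with _ | _ <;>
        rcases e4 : e z with _ | _ <;> simp [e1, e2, e3, e4] at h0 k k1 k2 k3 k4 <;> omega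
    · have k := h1 x z h0
      by_cases k1 : κ (φ x) = κ v
      exacts [⟨x, k1⟩, ⟨z, by omega⟩]

lemma e_clq (C : Core H F φ) {r : ℕ} (hr : ¬ F.Colorable r) (hH : H.Colorable (r + 1))
    (h : ∀ a b, a ≠ b → F.Adj a b) : ∃ χ : H →g F, ∀ a, χ (φ a) = a := by
  obtain ⟨κ⟩ := hH
  refine e_col κ (fun a b k => h a b fun e => k (e ▸ rfl)) fun v => ?_
  have h1 : Function.Injective fun a => κ (φ a) := fun a b e => by_contra fun k =>
    κ.valid ((C.adj a b).2 (h a b k)) e
  have h2 : r + 1 ≤ Fintype.card W0 := not_le.1 fun k => hr (F.colorable_of_fintype.mono k)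
  have h3 := Fintype.card_le_of_injective _ h1
  exact ((Fintype.bijective_iff_injective_and_card _).2 ⟨h1, le_antisymm h3
    ((Fintype.card_fin _).trans_le h2)⟩).2 (κ v)

lemma e_far (C : Core H F φ) {L : ℕ} {x z : W} (h0 : H.Adj x z) (h5 : Fintype.card W0 = L + 1)
    (h6 : F.edgeFinset.card ≤ L + 1) : (L : ℕ∞) ≤ (H.deleteEdges {s(x, z)}).edist x z := by
  by_contra k
  obtain ⟨p, hp⟩ := SimpleGraph.exists_walk_of_edist_ne_top (ne_top_of_lt (not_le.1 k))
  have q1 := p.bypass_isPath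
  have q2 : p.bypass.length < L := by
    rw [← hp, Nat.cast_le] at k
    exact p.length_bypass_le_length.trans_lt (not_le.1 k)
  generalize p.bypass = q at q1 q2
  have q3 : 2 ≤ q.length := by
    match q with
    | .nil => exact absurd rfl h0.ne
    | .cons h .nil => simp at h
    | .cons _ (.cons _ _) => simp
  have c1 : q.support.toFinset.card = q.length + 1 := by
    rw [List.toFinset_card_of_nodup q1.support_nodup, q.length_support]
  have c2 : q.length + 1 ≤ ein H.edgeFinset q.support.toFinset := by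
    have a1 : s(x, z) ∉ q.edges.toFinset := fun h => by
      simpa using q.edges_subset_edgeSet (List.mem_toFinset.1 h)
    rw [← q.length_edges, ← List.toFinset_card_of_nodup q1.isTrail.edges_nodup,
      ← card_insert_of_notMem a1]
    refine card_le_card (insert_subset (mem_filter.2 ⟨by simpa using h0, ?_⟩) fun e he => ?_)
    · simp [subset_iff]
    · have a2 := List.mem_toFinset.1 he
      induction e using Sym2.ind with
      | _ a b =>
        refine mem_filter.2 ⟨by simpa using (q.adj_of_mem_edges a2).1, ?_⟩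
        simpa [subset_iff] using
          And.intro (q.fst_mem_support_of_mem_edges a2) (q.snd_mem_support_of_mem_edges a2)
  have c4 := C.bal q.support.toFinset (by omega) fun h => by
    have := congrArg card h
    rw [c1, card_map, card_univ] at this
    omega
  rw [c1, h5] at c4
  zify at c2 h6 q2 q3
  push_cast at c4
  nlinarith only [c2, c4, h6, q2, q3]

lemma e_cyc0 (C : Core H F φ) (κ : H.Coloring Bool) {L : ℕ} (a : ℕ → W0)
    (h1 : ∀ i < L, F.Adj (a i) (a (i + 1))) (h2 : F.Adj (a 0) (a L))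
    (h3 : ∀ i ≤ L, ∀ j ≤ L, a i = a j → i = j) (h4 : ∀ w, ∃ i ≤ L, a i = w)
    (h5 : Fintype.card W0 = L + 1) (h6 : F.edgeFinset.card ≤ L + 1) :
    ∃ χ : H →g F, ∀ w, χ (φ w) = w := by
  have s3 := e_far C ((C.adj _ _).2 h2) h5 h6
  set G := H.deleteEdges {s(φ (a 0), φ (a L))} with hG
  have L2 : 2 ≤ L := by have := C.h3; omega
  have s1 : ∀ i < L, G.Adj (φ (a i)) (φ (a (i + 1))) := fun i hi => by
    refine SimpleGraph.deleteEdges_adj.2 ⟨(C.adj _ _).2 (h1 i hi), fun h => ?_⟩
    rcases Sym2.eq_iff.1 h with ⟨e1, e2⟩ | ⟨e1, e2⟩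
    · have := h3 _ hi.le _ (Nat.zero_le _) (φ.injective e1)
      have := h3 _ hi _ le_rfl (φ.injective e2)
      omega
    · have := h3 _ hi.le _ le_rfl (φ.injective e1)
      omega
  have s0 : ∀ u x y, G.Adj x y → G.edist u y ≤ G.edist u x + 1 := fun u x y h =>
    SimpleGraph.edist_triangle.trans (add_le_add le_rfl (SimpleGraph.edist_eq_one_iff_adj.2 h).le)
  have s2 : ∀ i j, i + j ≤ L → G.edist (φ (a i)) (φ (a (i + j))) ≤ j := fun i j => by
    induction j with
    | zero => simp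
    | succ j ih =>
      exact fun h => (s0 _ _ _ (s1 (i + j) h)).trans (by
        push_cast; exact add_le_add (ih (by omega)) le_rfl)
  have s5 : ∀ x, ∃ j : ℕ, (j : ℕ∞) = min (G.edist (φ (a 0)) x) (L + 1 : ℕ) := fun x =>
    ENat.ne_top_iff_exists.1 (ne_top_of_le_ne_top (ENat.natCast_ne_top _) (min_le_right _ _))
  choose δ hδ using s5
  have d1 : ∀ x y, G.Adj x y → δ y ≤ δ x + 1 := fun x y h => by
    rw [← Nat.cast_le (α := ℕ∞), Nat.cast_add, hδ, hδ, Nat.cast_one, ← min_add_add_right]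
    exact min_le_min (s0 _ _ _ h) le_self_add
  have d2 : ∀ x, δ x ≤ L → (Even (δ x) ↔ (κ (φ (a 0)) ↔ κ x)) := fun x h => by
    have e : G.edist (φ (a 0)) x = δ x := by
      rcases min_eq_iff.1 (hδ x).symm with k | k
      · exact k.1
      · have := Nat.cast_injective k.1
        omega
    obtain ⟨p, hp⟩ := SimpleGraph.exists_walk_of_edist_eq_coe e
    rw [← hp]
    exact SimpleGraph.Coloring.even_length_iff_congr (G := G)
      (SimpleGraph.Coloring.mk κ fun h => κ.valid (SimpleGraph.deleteEdges_adj.1 h).1) p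
  have d3 : ∀ i ≤ L, δ (φ (a i)) = i := fun i hi => by
    have b1 := s2 0 i (by omega)
    have b2 := s2 i (L - i) (by omega)
    rw [zero_add] at b1
    rw [Nat.add_sub_cancel' hi] at b2
    have b3 := s3.trans (SimpleGraph.edist_triangle.trans (add_le_add (le_refl _) b2))
    have b4 := hδ (φ (a i))
    rw [min_eq_left (b1.trans (by exact_mod_cast (by omega)))] at b4
    rw [← b4] at b1 b3
    norm_cast at b1 b3
    omega
  let r : W → ℕ := fun x => if δ x ≤ L then δ x else if κ x = κ (φ (a L)) then L else L - 1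
  have r1 : ∀ i ≤ L, r (φ (a i)) = i := fun i hi => by simp only [r, d3 i hi, if_pos hi]
  have r2 : ∀ x, r x ≤ L := fun x => by simp only [r]; split_ifs <;> omega
  have r3 : ∀ x y, G.Adj x y → r y ≤ r x + 1 := fun x y h => by
    have := d1 x y h
    have := d1 y x h.symm
    simp only [r]
    split_ifs <;> omega
  have r4 : ∀ x, Even (r x) ↔ (κ (φ (a 0)) ↔ κ x) := fun x => by
    have b1 := d2 (φ (a L)) (d3 L le_rfl).le
    rw [d3 L le_rfl] at b1
    simp only [r]
    split_ifs with k1 k2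
    · exact d2 x k1
    · rw [k2, b1]
    · rw [Nat.even_sub (by omega), b1]
      revert k2
      cases κ x <;> cases κ (φ (a L)) <;> simp
  refine ⟨⟨fun x => a (r x), fun {x y} h => ?_⟩, fun w => ?_⟩
  · by_cases k : s(x, y) = s(φ (a 0), φ (a L))
    · rcases Sym2.eq_iff.1 k with ⟨rfl, rfl⟩ | ⟨rfl, rfl⟩ <;>
        simp only [r1 0 (Nat.zero_le _), r1 L le_rfl]
      exacts [h2, h2.symm]
    · have b0 : G.Adj x y := SimpleGraph.deleteEdges_adj.2 ⟨h, k⟩
      have b1 := r3 x y b0
      have b2 := r3 y x b0.symm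
      have b3 : r x ≠ r y := fun e => by
        have b4 := (r4 x).symm.trans (e ▸ r4 y)
        have b5 := κ.valid h
        revert b4 b5
        cases κ x <;> cases κ y <;> simp
      have b4 := r2 x
      have b5 := r2 y
      rcases (by omega : r y = r x + 1 ∨ r x = r y + 1) with e | e <;> simp only [e]
      exacts [h1 _ (by omega), (h1 _ (by omega)).symm]
  · obtain ⟨i, hi, rfl⟩ := h4 w
    exact congrArg a (r1 i hi)

lemma e_cyc (C : Core H F φ) (hH : H.Colorable 2) {l : ℕ} (e : F ≃g SimpleGraph.cycleGraph l) :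
    ∃ χ : H →g F, ∀ a, χ (φ a) = a := by
  obtain ⟨κ⟩ := hH
  have c1 : Fintype.card W0 = l := (Fintype.card_congr e.toEquiv).trans (Fintype.card_fin l)
  obtain ⟨n, rfl⟩ : ∃ n, l = n + 3 := ⟨l - 3, by have := C.h3; omega⟩
  refine e_cyc0 C (H.recolorOfEquiv finTwoEquiv κ) (L := n + 2)
    (fun i => e.symm (Fin.ofNat (n + 3) i)) (fun i hi => e.symm.map_adj_iff.2 ?_)
    (e.symm.map_adj_iff.2 ?_) (fun i hi j hj h => ?_) (fun w => ?_) c1 ?_
  · refine SimpleGraph.cycleGraph_adj.2 (Or.inr (sub_eq_iff_eq_add'.2 (Fin.ext ?_)))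
    simp [Fin.val_add]
  · refine SimpleGraph.cycleGraph_adj.2 (Or.inl (sub_eq_iff_eq_add'.2 (Fin.ext ?_)))
    simp
  · have := congrArg Fin.val (e.symm.injective h)
    rwa [Fin.val_ofNat, Fin.val_ofNat, Nat.mod_eq_of_lt (by omega),
      Nat.mod_eq_of_lt (by omega)] at this
  · exact ⟨e w, Nat.le_of_lt_succ (e w).2, by simp⟩
  · have h1 := (SimpleGraph.cycleGraph (n + 3)).sum_degrees_eq_twice_card_edges
    simp only [SimpleGraph.cycleGraph_degree_three_le, sum_const, card_univ, Fintype.card_fin,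
      smul_eq_mul] at h1
    rw [e.card_edgeFinset_eq]
    omega

lemma e_deg (C : Core H F φ) {D : ℕ}
    (hD : 2 * (((F.edgeFinset.card : ℝ) - 1) / ((Fintype.card W0 : ℝ) - 2)) ≤ D + 1) :
    EDeg H φ D := by
  intro U h1 h2
  by_contra hc
  push Not at hc
  have h3 := C.h3
  have h4 : (3 : ℝ) ≤ Fintype.card W0 := by exact_mod_cast h3
  rw [← mul_div_assoc, div_le_iff₀ (by linarith only [h4])] at hD
  have h5 : 2 * ((F.edgeFinset.card : ℤ) - 1) ≤ (D + 1) * ((Fintype.card W0 : ℤ) - 2) := by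
    exact_mod_cast hD
  set E1 := H.edgeFinset.filter fun e => e.toFinset ⊆ univ.map φ ∪ U with hE1
  set E2 := E1 \ F.edgeFinset.image (Sym2.map φ) with hE2
  have c1 : E2.card + F.edgeFinset.card = ein H.edgeFinset (univ.map φ ∪ U) := by
    rw [← card_image_of_injective F.edgeFinset (Sym2.map.injective φ.injective)]
    exact card_sdiff_add_card_eq_card (image_subset_iff.2 fun e he =>
      mem_filter.2 ⟨C.map_mem.2 he, (map_sub e).trans subset_union_left⟩)
  have c2 : (univ.map φ ∪ U).card = Fintype.card W0 + U.card := by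
    rw [card_union_of_disjoint h2.symm, card_map, card_univ]
  have c0 := card_pos.2 h1
  have c3 := C.bal (univ.map φ ∪ U) (by omega) fun h => by
    have := congrArg card h
    rw [c2, card_map, card_univ] at this
    omega
  have c4 : ∀ u ∈ U, D + 1 ≤ (E2.filter fun e => u ∈ e).card := fun u hu => by
    refine le_trans (by have := hc u hu; omega) (card_le_card (s := H.edgeFinset.filter fun e =>
      e.toFinset ⊆ univ.map φ ∪ U ∧ u ∈ e) fun e he => ?_)
    obtain ⟨a1, a2, a3⟩ := mem_filter.1 he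
    refine mem_filter.2 ⟨mem_sdiff.2 ⟨mem_filter.2 ⟨a1, a2⟩, fun h => ?_⟩, a3⟩
    obtain ⟨g, -, rfl⟩ := mem_image.1 h
    exact disjoint_left.1 h2 hu (map_sub g (Sym2.mem_toFinset.2 a3))
  have c5 : ∑ u ∈ U, (E2.filter fun e => u ∈ e).card ≤ E2.card * 2 := by
    simp only [card_filter]
    rw [sum_comm]
    refine sum_le_card_nsmul _ _ 2 fun e _ => ?_
    rw [← card_filter]
    refine (card_le_card (t := e.toFinset) fun u hu =>
      Sym2.mem_toFinset.2 (mem_filter.1 hu).2).trans ?_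
    rw [Sym2.card_toFinset]
    split_ifs <;> omega
  have c6 := (card_nsmul_le_sum _ _ _ c4).trans c5
  rw [smul_eq_mul] at c6
  rw [← c1, c2] at c3
  zify at c6
  have c7 : (3 : ℤ) ≤ Fintype.card W0 := by exact_mod_cast h3
  push_cast at c3
  have c8 := mul_le_mul_of_nonneg_left h5 (Int.natCast_nonneg U.card)
  have c9 := mul_le_mul_of_nonneg_right c6 (show (0 : ℤ) ≤ Fintype.card W0 - 2 by omega)
  linarith only [c3, c8, c9]

lemma e_bal {S : H.Subgraph} (hS : UniqueDensest S) :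
    StrictlyTwoBalanced S.coe ∧ twoDensity S.coe = twoDensity H := by
  have e1 : ∀ T : S.coe.Subgraph, (SimpleGraph.Subgraph.coeSubgraph T).verts.ncard = T.verts.ncard :=
    fun T => Set.ncard_image_of_injective _ Subtype.val_injective
  have e2 : ∀ T : S.coe.Subgraph, twoRatio (SimpleGraph.Subgraph.coeSubgraph T) = twoRatio T :=
    fun T => by
    rw [twoRatio, twoRatio, e1, SimpleGraph.Subgraph.edgeSet_map,
      Set.ncard_image_of_injective _ (Sym2.map.injective (f := S.hom) Subtype.val_injective)]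
  have e3 : SimpleGraph.Subgraph.coeSubgraph (⊤ : S.coe.Subgraph) = S := S.map_hom_top
  have e4 : ∀ T : S.coe.Subgraph, T ≠ ⊤ → 3 ≤ T.verts.ncard →
      twoRatio T < twoRatio (⊤ : S.coe.Subgraph) := fun T h1 h2 => by
    rw [← e2, ← e2, e3]
    exact hS.2 _ (fun h => h1 (S.coeSubgraph_injective (h.trans e3.symm))) (e1 T ▸ h2)
  refine ⟨⟨hS.1, e4⟩, ?_⟩
  have r1 : twoDensity H = twoRatio S := by
    refine IsGreatest.csSup_eq ⟨⟨S, hS.1, rfl⟩, ?_⟩
    rintro _ ⟨T, h1, rfl⟩
    by_cases h : T = S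
    · rw [h]
    · exact (hS.2 T h h1).le
  have e5 : twoRatio S = twoRatio (⊤ : S.coe.Subgraph) := by rw [← e2, e3]
  rw [r1, e5]
  refine IsGreatest.csSup_eq ⟨⟨⊤, by rw [← e1, e3]; exact hS.1, rfl⟩, ?_⟩
  rintro _ ⟨T, h1, rfl⟩
  by_cases h : T = ⊤
  · rw [h]
  · exact (e4 T h h1).le

end Pool.Agent.Work.MP_d4a230_co.U
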